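import Pool.Agent.QC.Sign.Bkr

/-!
# The Ben-Or-Kozen-Reif reduction as a computation
-/

namespace Pool.Agent.QC

open MvPolynomial

variable {σ : Type*}

lemma spec_prod (y : σ → ℝ) (G : ℕ → Polynomial (MvPolynomial σ ℤ)) (k : ℕ) (α : ℕ → ℕ) :
    spec (∏ j ∈ Finset.range k, G j ^ α j) y = ∏ j ∈ Finset.range k, (spec (G j) y) ^ α j := by
  simp [spec, Polynomial.map_prod, Polynomial.map_pow]

/-- The sign vectors of `k` polynomials at the points of a finite set of reals, as a multiset,
out of Tarski queries. -/
theorem Dec.bkr {M ct d : ℕ} (Z : (σ → ℝ) → Finset ℝ) (G : ℕ → Polynomial (MvPolynomial σ ℤ))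
    {K : Set (MvPolynomial σ ℤ)} {D : Set (σ → ℝ)} (hZ : ∀ y ∈ D, (Z y).card ≤ d) (k : ℕ)
    (oracle : ∀ α, Adm k α → Dec M ct K D (fun y => ∑ z ∈ Z y,
      ((SignType.sign ((spec (∏ j ∈ Finset.range k, G j ^ α j) y).eval z) : SignType) : ℤ))) :
    Dec M (ct + k * (3 * d * ct)) K D
      (fun y => (Z y).val.map (svec (fun j => spec (G j) y) k)) := by
  classical
  have hq : ∀ α, Adm k α → Dec M ct K D (fun y => ∑ z ∈ Z y,
      smono k α (svec (fun j => spec (G j) y) k z)) := by
    intro α hα
    refine (oracle α hα).factor fun x _ y _ hxy => ?_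
    have h1 : ∀ y : σ → ℝ, ∑ z ∈ Z y, smono k α (svec (fun j => spec (G j) y) k z) =
        ((∑ z ∈ Z y, ((SignType.sign ((spec (∏ j ∈ Finset.range k, G j ^ α j) y).eval z) :
          SignType) : ℤ) : ℤ) : ℚ) := by
      intro y
      rw [Int.cast_sum]
      refine Finset.sum_congr rfl fun z _ => ?_
      rw [← sign_prod_eval, spec_prod]
    rw [h1, h1]
    exact congrArg _ hxy
  have key : ∀ i ≤ k, Dec M (ct + i * (3 * d * ct)) K D
      (fun y => (Z y).val.map (svec (fun j => spec (G j) y) i)) := by
    intro i
    induction i with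
    | zero =>
      intro _
      have h0 := hq (fun _ => 0) (fun j => by simp)
      refine (h0.mono_c (by omega)).factor fun x _ y _ hxy => ?_
      have h1 : ∀ y : σ → ℝ, ∑ z ∈ Z y,
          smono k (fun _ => 0) (svec (fun j => spec (G j) y) k z) = (Z y).card := by
        intro y
        simp [smono]
      rw [h1, h1] at hxy
      have h2 : (Z x).card = (Z y).card := by exact_mod_cast hxy
      have h3 : ∀ y : σ → ℝ, (Z y).val.map (svec (fun j => spec (G j) y) 0) =
          Multiset.replicate (Z y).card (fun _ => 0) := by
        intro y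
        rw [Multiset.eq_replicate]
        refine ⟨by simp, fun b hb => ?_⟩
        obtain ⟨z, _, rfl⟩ := Multiset.mem_map.1 hb
        funext j
        simp [svec]
      rw [h3, h3, h2]
    | succ i ih =>
      intro hi
      have h1 := ih (by omega)
      have hcost : ct + (i + 1) * (3 * d * ct) = (ct + i * (3 * d * ct)) + 3 * d * ct := by ring
      rw [hcost]
      refine h1.bind fun s => ?_
      set D₀ : Set (σ → ℝ) := D ∩ (fun y => (Z y).val.map (svec (fun j => spec (G j) y) i)) ⁻¹' {s}
        with hD₀
      rcases Set.eq_empty_or_nonempty D₀ with he | ⟨y₀, hy₀⟩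
      · rw [he]; exact Dec.leaf (by simp)
      have hs0 : (Z y₀).val.map (svec (fun j => spec (G j) y₀) i) = s := hy₀.2
      obtain ⟨E, hE1, hE2, hE3⟩ := exists_sep i s.toFinset (by
        intro a ha b hb hab
        rw [Multiset.mem_toFinset, ← hs0] at ha hb
        obtain ⟨u, _, rfl⟩ := Multiset.mem_map.1 ha
        obtain ⟨v, _, rfl⟩ := Multiset.mem_map.1 hb
        funext j
        by_cases hj : j < i
        · exact hab j hj
        · simp [svec, hj])
      have hEc : E.card ≤ d := by
        refine hE1.trans ((Multiset.toFinset_card_le s).trans ?_)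
        rw [← hs0, Multiset.card_map]
        exact hZ y₀ hy₀.1
      have hadm : ∀ α ∈ E, ∀ e < 3, Adm k (Function.update α i e) := by
        intro α hα e he j
        by_cases hj : j = i
        · subst hj
          simp only [Function.update_self]
          exact ⟨by omega, fun h => by omega⟩
        · rw [Function.update_of_ne hj]
          exact ⟨(hE2 α hα j).1, fun h => (hE2 α hα j).2 (by omega)⟩
      have h3 := Dec.pi (ι := E × Fin 3) (T := fun p y => ∑ z ∈ Z y,
        smono k (Function.update p.1.1 i p.2.1) (svec (fun j => spec (G j) y) k z))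
        (M := M) (c := ct) (K := K) (D := D₀)
        (fun p => (hq _ (hadm p.1.1 p.1.2 p.2.1 p.2.2)).mono_D Set.inter_subset_left)
      have hc : Fintype.card (E × Fin 3) * ct ≤ 3 * d * ct := by
        rw [Fintype.card_prod, Fintype.card_fin, Fintype.card_coe]
        exact Nat.mul_le_mul_right _ (by omega)
      refine (h3.mono_c hc).factor fun x hx y hy hxy => ?_
      have hx2 : (Z x).val.map (svec (fun j => spec (G j) x) i) = s := hx.2
      have hy2 : (Z y).val.map (svec (fun j => spec (G j) y) i) = s := hy.2
      refine bkr_step (hx2.trans hy2.symm) s.toFinset ?_ E hE2 hE3 ?_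
      · intro z hz
        rw [Multiset.mem_toFinset, ← hx2]
        exact Multiset.mem_map_of_mem _ hz
      · intro α hα e he
        have h4 := congrFun hxy (⟨α, hα⟩, ⟨e, he⟩)
        have h5 : ∀ y : σ → ℝ, ∑ z ∈ Z y, smono (i + 1) (Function.update α i e)
            (svec (fun j => spec (G j) y) (i + 1) z) = ∑ z ∈ Z y,
            smono k (Function.update α i e) (svec (fun j => spec (G j) y) k z) := by
          intro y
          refine Finset.sum_congr rfl fun z _ => ?_
          rw [smono, smono]
          rw [← Finset.prod_range_mul_prod_Ico _ hi]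
          rw [Finset.prod_congr rfl (g := fun j => (((svec (fun j => spec (G j) y) k z j :
            SignType) : ℤ) : ℚ) ^ Function.update α i e j), Finset.prod_eq_one
              (s := Finset.Ico (i + 1) k), mul_one]
          · intro j hj
            have hj2 := Finset.mem_Ico.1 hj
            rw [Function.update_of_ne (by omega), (hE2 α hα j).2 (by omega), pow_zero]
          · intro j hj
            have hj2 := Finset.mem_range.1 hj
            congr 3
            rw [svec, svec, if_pos hj2, if_pos (by omega)]
        rw [h5, h5]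
        exact h4
  exact key k le_rfl

end Pool.Agent.QC
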