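import Pool.Agent.QC.Sign.Calc
import Pool.Agent.QC.Sign.BkrDec

/-!
# Tarski queries as computations
-/

namespace Pool.Agent.QC

open MvPolynomial

variable {σ : Type*}

lemma spec_coeff (P : Polynomial (MvPolynomial σ ℤ)) (y : σ → ℝ) (i : ℕ) :
    (spec P y).coeff i = ev y (P.coeff i) := by
  rw [spec, Polynomial.coeff_map, evHom_apply]

lemma natDegree_spec_le (P : Polynomial (MvPolynomial σ ℤ)) (y : σ → ℝ) :
    (spec P y).natDegree ≤ P.natDegree := Polynomial.natDegree_map_le

/-- The signs of the coefficients determine the degree. -/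
theorem degree_eq_of_sign {P : Polynomial (MvPolynomial σ ℤ)} {d : ℕ} (hP : P.natDegree ≤ d)
    {x y : σ → ℝ}
    (h : ∀ i ≤ d, SignType.sign (ev x (P.coeff i)) = SignType.sign (ev y (P.coeff i))) :
    (spec P x).degree = (spec P y).degree := by
  have hs : (spec P x).support = (spec P y).support := by
    ext i
    rw [Polynomial.mem_support_iff, Polynomial.mem_support_iff, spec_coeff, spec_coeff]
    by_cases hi : i ≤ d
    · have h1 := h i hi
      have h2 : ev x (P.coeff i) = 0 ↔ ev y (P.coeff i) = 0 := by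
        rw [← sign_eq_zero_iff, h1, sign_eq_zero_iff]
      exact not_congr h2
    · have h1 : P.coeff i = 0 := Polynomial.coeff_eq_zero_of_natDegree_lt (by omega)
      rw [h1]; simp
  rw [Polynomial.degree, Polynomial.degree, hs]

theorem ev_hmat_charpolyRev {P G : Polynomial (MvPolynomial σ ℤ)} {n d i : ℕ} (hi : i ≤ n)
    (y : σ → ℝ) :
    ev y ((hmat P.coeff G.coeff n d).charpolyRev.coeff i) =
      (hmat (spec P y).coeff (spec G y).coeff n d).charpolyRev.coeff i := by
  rw [charpolyRev_coeff _ hi, charpolyRev_coeff _ hi]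
  have h1 : hmat (spec P y).coeff (spec G y).coeff n d =
      (hmat P.coeff G.coeff n d).map (evHom y) := by
    rw [map_hmat]
    congr 1 <;> funext i <;> rw [spec_coeff] <;> rfl
  rw [h1, Matrix.charpoly_map, Polynomial.coeff_map, evHom_apply]

theorem Dec.taq {m d M : ℕ} {K : Set (MvPolynomial σ ℤ)} {D : Set (σ → ℝ)}
    (P G : Polynomial (MvPolynomial σ ℤ)) (hP : P.natDegree ≤ d) (hG : G.natDegree ≤ d)
    (hPK : ∀ i ≤ d, P.coeff i ∈ K) (hGK : ∀ i ≤ d, G.coeff i ∈ K)
    (hPm : ∀ i, (P.coeff i).totalDegree ≤ m) (hGm : ∀ i, (G.coeff i).totalDegree ≤ m)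
    (hM : 4 * (d + 1) ^ 2 * m ≤ M) :
    Dec M (200 * (d + 1) ^ 4) K D (fun y => QC.taq (spec P y) (spec G y)) := by
  have h0 : Dec M (Fintype.card (Fin (d + 1)) * 1) K D
      (fun y (i : Fin (d + 1)) => SignType.sign (ev y (P.coeff i))) :=
    Dec.pi fun i => Dec.sign (hPK i (by omega))
  rw [Fintype.card_fin, mul_one] at h0
  have hbind : Dec M ((d + 1) + 190 * (d + 1) ^ 4) K D
      (fun y => QC.taq (spec P y) (spec G y)) := by
    refine h0.bind fun s => ?_
    set D₀ : Set (σ → ℝ) := D ∩ (fun y (i : Fin (d + 1)) =>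
      SignType.sign (ev y (P.coeff i))) ⁻¹' {s} with hD₀
    rcases Set.eq_empty_or_nonempty D₀ with he | ⟨y₀, hy₀⟩
    · rw [he]; exact Dec.leaf (by simp)
    have hdeg : ∀ y ∈ D₀, (spec P y).degree = (spec P y₀).degree := by
      intro y hy
      refine degree_eq_of_sign hP fun i hi => ?_
      have h1 := congrFun (hy.2.trans hy₀.2.symm) ⟨i, by omega⟩
      exact h1
    by_cases hz : spec P y₀ = 0
    · refine Dec.leaf fun x hx y hy => ?_
      have h1 : ∀ y ∈ D₀, spec P y = 0 := fun y hy => by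
        rw [← Polynomial.degree_eq_bot, hdeg y hy, hz, Polynomial.degree_zero]
      rw [h1 x hx, h1 y hy, QC.taq, QC.taq]
      simp
    set n := (spec P y₀).natDegree with hn
    have hnd : n ≤ d := (natDegree_spec_le P y₀).trans hP
    have hP0 : ∀ y ∈ D₀, spec P y ≠ 0 := fun y hy h0 => by
      have := hdeg y hy
      rw [h0, Polynomial.degree_zero] at this
      exact hz (Polynomial.degree_eq_bot.1 this.symm)
    have hPn : ∀ y ∈ D₀, (spec P y).natDegree = n := fun y hy =>
      Polynomial.natDegree_eq_natDegree (hdeg y hy)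
    -- the matrix
    have c1 : Calc M (20 * (d + n + 1) ^ 3) K
        {q | ∃ i j, q = QC.hmat P.coeff G.coeff n d i j} := by
      refine Calc.hmat (fun i hi => hPK i (hi.trans hnd)) hGK hPm hGm ?_
      refine le_trans (Nat.mul_le_mul_right _ ?_) hM
      nlinarith
    have c2 : Calc M (n * (n * (n * (2 * n)) + (n + 1) * (2 * n + 1)))
        (K ∪ {q | ∃ i j, q = QC.hmat P.coeff G.coeff n d i j})
        {q | ∃ i < n + 1, q = (QC.hmat P.coeff G.coeff n d).charpolyRev.coeff i} := by
      refine Calc.charpolyRev (m := (1 + 2 * d + 2 * n) * m) (N := n)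
        (fun i j => Or.inr ⟨i, j, rfl⟩) (totalDegree_hmat hPm hGm n d) ?_
      rw [← mul_assoc]
      refine le_trans (Nat.mul_le_mul_right _ ?_) hM
      have : n * (1 + 2 * d + 2 * n) ≤ d * (1 + 2 * d + 2 * d) :=
        Nat.mul_le_mul hnd (by omega)
      nlinarith
    have h1 : Dec M (Fintype.card (Fin (n + 1)) * 1)
        (K ∪ {q | ∃ i < n + 1, q = (QC.hmat P.coeff G.coeff n d).charpolyRev.coeff i}) D₀
        (fun y (i : Fin (n + 1)) => SignType.sign
          (ev y ((QC.hmat P.coeff G.coeff n d).charpolyRev.coeff i))) :=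
      Dec.pi fun i => Dec.sign (Or.inr ⟨i, i.2, rfl⟩)
    rw [Fintype.card_fin, mul_one] at h1
    refine (((c1.trans' c2).dec h1).mono_c ?_).factor fun x hx y hy hxy => ?_
    · have e1 : (d + n + 1) ^ 3 ≤ (2 * (d + 1)) ^ 3 := Nat.pow_le_pow_left (by omega) 3
      have e2 : n * (n * (n * (2 * n)) + (n + 1) * (2 * n + 1)) ≤
          d * (d * (d * (2 * d)) + (d + 1) * (2 * d + 1)) := by gcongr
      have e3 : n + 1 ≤ d + 1 := by omega
      have e4 : d * (d * (d * (2 * d)) + (d + 1) * (2 * d + 1)) ≤ 4 * (d + 1) ^ 4 := by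
        nlinarith [Nat.zero_le d, Nat.zero_le (d ^ 2), Nat.zero_le (d ^ 3)]
      have e5 : (2 * (d + 1)) ^ 3 = 8 * (d + 1) ^ 3 := by ring
      have e6 : (d + 1) ^ 3 ≤ (d + 1) ^ 4 := Nat.pow_le_pow_right (by omega) (by norm_num)
      have e7 : d + 1 ≤ (d + 1) ^ 4 := by
        calc d + 1 = (d + 1) ^ 1 := (pow_one _).symm
          _ ≤ (d + 1) ^ 4 := Nat.pow_le_pow_right (by omega) (by norm_num)
      omega
    · refine taq_eq_of_sign (hP0 x hx) (hP0 y hy) (hPn x hx) (hPn y hy)
        ((natDegree_spec_le G x).trans hG) ((natDegree_spec_le G y).trans hG) fun i hi => ?_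
      have h2 := congrFun hxy ⟨i, by omega⟩
      simp only at h2
      rwa [ev_hmat_charpolyRev hi, ev_hmat_charpolyRev hi] at h2
  refine hbind.mono_c ?_
  have e7 : d + 1 ≤ (d + 1) ^ 4 := by
    calc d + 1 = (d + 1) ^ 1 := (pow_one _).symm
      _ ≤ (d + 1) ^ 4 := Nat.pow_le_pow_right (by omega) (by norm_num)
  omega

end Pool.Agent.QC
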