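import Pool.Agent.QC.Root

/-!
# Thom's lemma

The signs of all derivatives of `P` at the real roots of `P` determine the order of the roots.
Hence the multiset of the sign vectors determines the list of the signs of `G` at the roots in
increasing order.
-/

set_option autoImplicit false

namespace Pool.Agent.QC

open Polynomial

/-- The signs of the derivatives of `P` and the sign of `G` at the point `z`. -/
noncomputable def thomVec (d : ℕ) (P G : ℝ[X]) (z : ℝ) : (Fin (d + 1) → SignType) × SignType :=
  (fun i => SignType.sign ((derivative^[i] P).eval z), SignType.sign (G.eval z))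

/-- The order of the roots, read off from the sign vectors. -/
private def ThLT {d : ℕ} (a b : Fin (d + 1) → SignType) : Prop :=
  ∃ (k : ℕ) (hk : k < d), (∀ i : Fin (d + 1), k < (i : ℕ) → a i = b i) ∧
    ((a ⟨k + 1, by omega⟩ = 1 ∧ a ⟨k, by omega⟩ < b ⟨k, by omega⟩) ∨
      (a ⟨k + 1, by omega⟩ = -1 ∧ b ⟨k, by omega⟩ < a ⟨k, by omega⟩))

private lemma ThLT.asymm {d : ℕ} {a b : Fin (d + 1) → SignType} (h : ThLT a b) (h' : ThLT b a) :
    False := by
  obtain ⟨k, hk, h1, h2⟩ := h
  obtain ⟨k', hk', h1', h2'⟩ := h'
  rcases lt_trichotomy k k' with hlt | rfl | hlt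
  · have h3 := h1 ⟨k', by omega⟩ hlt
    rcases h2' with ⟨-, h4⟩ | ⟨-, h4⟩
    · exact h4.ne' h3
    · exact h4.ne h3
  · have h3 := h1 ⟨k + 1, by omega⟩ (Nat.lt_succ_self k)
    rcases h2 with ⟨h4, h5⟩ | ⟨h4, h5⟩ <;> rcases h2' with ⟨h4', h5'⟩ | ⟨h4', h5'⟩
    · exact lt_asymm h5 h5'
    · rw [h3, h4'] at h4
      exact absurd h4 (by decide)
    · rw [h3, h4'] at h4
      exact absurd h4 (by decide)
    · exact lt_asymm h5 h5'
  · have h3 := h1' ⟨k, by omega⟩ hlt
    rcases h2 with ⟨-, h4⟩ | ⟨-, h4⟩
    · exact h4.ne' h3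
    · exact h4.ne h3

/-- `Q` has constant sign on `[x, y]`. -/
private def CS (Q : ℝ[X]) (x y : ℝ) : Prop :=
  ∀ z ∈ Set.Icc x y, SignType.sign (Q.eval z) = SignType.sign (Q.eval x)

private lemma mono_of_nonneg {Q : ℝ[X]} {x y : ℝ}
    (h : ∀ z ∈ Set.Icc x y, 0 ≤ (derivative Q).eval z) :
    MonotoneOn (fun z => Q.eval z) (Set.Icc x y) := by
  refine monotoneOn_of_deriv_nonneg (convex_Icc x y) Q.continuous.continuousOn
    Q.differentiable.differentiableOn fun z hz => ?_
  rw [Polynomial.deriv]
  exact h z (interior_subset hz)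

private lemma anti_of_nonpos {Q : ℝ[X]} {x y : ℝ}
    (h : ∀ z ∈ Set.Icc x y, (derivative Q).eval z ≤ 0) :
    AntitoneOn (fun z => Q.eval z) (Set.Icc x y) := by
  refine antitoneOn_of_deriv_nonpos (convex_Icc x y) Q.continuous.continuousOn
    Q.differentiable.differentiableOn fun z hz => ?_
  rw [Polynomial.deriv]
  exact h z (interior_subset hz)

private lemma CS.nonneg {Q : ℝ[X]} {x y : ℝ} (h : CS Q x y) (hs : 0 ≤ Q.eval x) :
    ∀ z ∈ Set.Icc x y, 0 ≤ Q.eval z := by
  intro z hz
  have h1 := h z hz
  rw [← sign_nonneg_iff] at hs ⊢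
  rw [h1]
  exact hs

private lemma CS.nonpos {Q : ℝ[X]} {x y : ℝ} (h : CS Q x y) (hs : Q.eval x ≤ 0) :
    ∀ z ∈ Set.Icc x y, Q.eval z ≤ 0 := by
  intro z hz
  have h1 := h z hz
  rw [← sign_nonpos_iff] at hs ⊢
  rw [h1]
  exact hs

private lemma CS.step {Q : ℝ[X]} {x y : ℝ} (hxy : x ≤ y) (h : CS (derivative Q) x y)
    (he : SignType.sign (Q.eval x) = SignType.sign (Q.eval y)) : CS Q x y := by
  intro z hz
  have hx : x ∈ Set.Icc x y := ⟨le_rfl, hxy⟩
  have hy : y ∈ Set.Icc x y := ⟨hxy, le_rfl⟩
  rcases le_total 0 ((derivative Q).eval x) with hs | hs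
  · have hm := mono_of_nonneg (h.nonneg hs)
    refine le_antisymm ?_ ?_
    · rw [he]
      exact SignType.sign.monotone (hm hz hy hz.2)
    · exact SignType.sign.monotone (hm hx hz hz.1)
  · have hm := anti_of_nonpos (h.nonpos hs)
    refine le_antisymm ?_ ?_
    · exact SignType.sign.monotone (hm hx hz hz.1)
    · rw [he]
      exact SignType.sign.monotone (hm hz hy hz.2)

private lemma thom_lt {P : ℝ[X]} {d : ℕ} (hP : P.natDegree ≤ d) (h0 : P ≠ 0) (G : ℝ[X])
    {x y : ℝ} (hx : P.eval x = 0) (hxy : x < y) :
    ThLT (thomVec d P G x).1 (thomVec d P G y).1 := by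
  have key : ∀ n, n ≤ d + 1 → (CS (derivative^[d + 1 - n] P) x y ∧
      ∀ i, d + 1 - n ≤ i → SignType.sign ((derivative^[i] P).eval x) =
        SignType.sign ((derivative^[i] P).eval y)) ∨
      ThLT (thomVec d P G x).1 (thomVec d P G y).1 := by
    have hz : ∀ i, d + 1 ≤ i → derivative^[i] P = 0 := by
      intro i hi
      exact Polynomial.iterate_derivative_eq_zero (by omega)
    intro n
    induction n with
    | zero =>
      intro _
      left
      refine ⟨?_, fun i hi => ?_⟩
      · intro z _
        rw [hz _ (by omega)]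
        simp
      · rw [hz i (by omega)]
        simp
    | succ n ih =>
      intro hn
      rcases ih (by omega) with ⟨hcs, hsg⟩ | h
      · have hj : d + 1 - n = (d + 1 - (n + 1)) + 1 := by omega
        set j := d + 1 - (n + 1) with hjd
        rw [hj, Function.iterate_succ_apply'] at hcs
        by_cases he : SignType.sign ((derivative^[j] P).eval x) =
            SignType.sign ((derivative^[j] P).eval y)
        · left
          refine ⟨CS.step hxy.le hcs he, fun i hi => ?_⟩
          rcases Nat.eq_or_lt_of_le hi with rfl | hlt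
          · exact he
          · exact hsg i (by omega)
        · right
          have hxI : x ∈ Set.Icc x y := ⟨le_rfl, hxy.le⟩
          have hyI : y ∈ Set.Icc x y := ⟨hxy.le, le_rfl⟩
          have hjd' : j < d := by
            by_contra hcon
            have h1 : derivative (derivative^[j] P) = 0 := by
              rw [← Function.iterate_succ_apply' derivative j P]
              exact hz _ (by omega)
            have h2 : ∀ z ∈ Set.Icc x y, 0 ≤ (derivative (derivative^[j] P)).eval z := by
              intro z _; rw [h1]; simp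
            have h3 : ∀ z ∈ Set.Icc x y, (derivative (derivative^[j] P)).eval z ≤ 0 := by
              intro z _; rw [h1]; simp
            exact he (congrArg _ (le_antisymm (mono_of_nonneg h2 hxI hyI hxy.le)
              (anti_of_nonpos h3 hxI hyI hxy.le)))
          refine ⟨j, hjd', fun i hi => hsg i (by omega), ?_⟩
          change (SignType.sign ((derivative^[j + 1] P).eval x) = 1 ∧
            SignType.sign ((derivative^[j] P).eval x) < SignType.sign ((derivative^[j] P).eval y)) ∨
            (SignType.sign ((derivative^[j + 1] P).eval x) = -1 ∧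
            SignType.sign ((derivative^[j] P).eval y) < SignType.sign ((derivative^[j] P).eval x))
          rw [Function.iterate_succ_apply']
          rcases lt_trichotomy ((derivative (derivative^[j] P)).eval x) 0 with hs | hs | hs
          · right
            refine ⟨sign_neg hs, lt_of_le_of_ne ?_ (Ne.symm he)⟩
            exact SignType.sign.monotone (anti_of_nonpos (hcs.nonpos hs.le) hxI hyI hxy.le)
          · exfalso
            exact he (congrArg _ (le_antisymm
              (mono_of_nonneg (hcs.nonneg hs.ge) hxI hyI hxy.le)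
              (anti_of_nonpos (hcs.nonpos hs.le) hxI hyI hxy.le)))
          · left
            refine ⟨sign_pos hs, lt_of_le_of_ne ?_ he⟩
            exact SignType.sign.monotone (mono_of_nonneg (hcs.nonneg hs.le) hxI hyI hxy.le)
      · exact Or.inr h
  rcases key (d + 1) le_rfl with ⟨hcs, -⟩ | h
  · exfalso
    rw [Nat.sub_self, Function.iterate_zero_apply] at hcs
    refine h0 (Polynomial.eq_zero_of_infinite_isRoot P ((Set.Icc_infinite hxy).mono ?_))
    intro z hz
    have h1 := hcs z hz
    rw [hx, sign_zero, sign_eq_zero_iff] at h1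
    exact h1
  · exact h

theorem thom_sorted {P P' G G' : ℝ[X]} {d : ℕ} (hP : P.natDegree ≤ d) (hP' : P'.natDegree ≤ d)
    (h : P.roots.toFinset.val.map (thomVec d P G) = P'.roots.toFinset.val.map (thomVec d P' G')) :
    (rootList P).map (fun z => SignType.sign (G.eval z)) =
      (rootList P').map (fun z => SignType.sign (G'.eval z)) := by
  have hpw : ∀ {P G : ℝ[X]}, P.natDegree ≤ d → ((rootList P).map (thomVec d P G)).Pairwise
      (fun a b => ThLT a.1 b.1) := by
    intro P G hP
    rw [List.pairwise_map]
    rcases eq_or_ne P 0 with rfl | h0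
    · have : rootList (0 : ℝ[X]) = [] := by simp [rootList]
      rw [this]
      exact List.Pairwise.nil
    · refine (List.Pairwise.imp_of_mem ?_ (sortedLT_rootList P))
      intro x y hx _ hxy
      exact thom_lt hP h0 G ((mem_rootList h0).1 hx) hxy
  have hperm : ((rootList P).map (thomVec d P G)).Perm ((rootList P').map (thomVec d P' G')) := by
    rw [← Multiset.coe_eq_coe, ← Multiset.map_coe, ← Multiset.map_coe, rootList, rootList,
      Finset.sort_eq, Finset.sort_eq]
    exact h
  have heq : (rootList P).map (thomVec d P G) = (rootList P').map (thomVec d P' G') := by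
    refine hperm.eq_of_pairwise (le := fun a b => ThLT a.1 b.1) ?_ (hpw hP) (hpw hP')
    intro a b _ _ hab hba
    exact (hab.asymm hba).elim
  have h2 := congrArg (List.map Prod.snd) heq
  simpa [List.map_map, Function.comp_def, thomVec] using h2

end Pool.Agent.QC
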