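import Pool.Agent.QC.Poly
import Pool.Agent.QC.Sign.TaqDec
import Pool.Agent.QC.Sign.Thom

/-!
# SIGN: the signs of a polynomial at all real roots of another one
-/

namespace Pool.Agent.QC

open MvPolynomial

variable {σ : Type*}

/-- The derivatives of `P` of orders `0, ..., d`, followed by `G`. -/
noncomputable def thG (d : ℕ) (P G : Polynomial (MvPolynomial σ ℤ)) (j : ℕ) :
    Polynomial (MvPolynomial σ ℤ) := if j ≤ d then Polynomial.derivative^[j] P else G

theorem totalDegree_iterate_derivative {P : Polynomial (MvPolynomial σ ℤ)} {m : ℕ}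
    (hP : ∀ i, (P.coeff i).totalDegree ≤ m) (j i : ℕ) :
    ((Polynomial.derivative^[j] P).coeff i).totalDegree ≤ m := by
  induction j generalizing i with
  | zero => exact hP i
  | succ j ih =>
    rw [Function.iterate_succ_apply', Polynomial.coeff_derivative]
    refine (totalDegree_mul _ _).trans ?_
    have h2 : ((i : MvPolynomial σ ℤ) + 1) = C ((i : ℤ) + 1) := by simp
    rw [h2, totalDegree_C, add_zero]
    exact ih _

theorem natDegree_iterate_derivative_le' {R : Type*} [CommRing R] {P : Polynomial R} {d : ℕ}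
    (hP : P.natDegree ≤ d) (j : ℕ) : (Polynomial.derivative^[j] P).natDegree ≤ d :=
  (Polynomial.natDegree_iterate_derivative P j).trans ((Nat.sub_le _ _).trans hP)

theorem Calc.ders {m d M : ℕ} {K : Set (MvPolynomial σ ℤ)} {P : Polynomial (MvPolynomial σ ℤ)}
    (hP : P.natDegree ≤ d) (hPK : Set.range P.coeff ⊆ K)
    (hPm : ∀ i, (P.coeff i).totalDegree ≤ m) (hM : m ≤ M) :
    Calc M ((d + 1) * (d + 1)) K
      {q | ∃ j < d + 1, q ∈ Set.range (Polynomial.derivative^[j] P).coeff} := by
  refine Calc.iter (P := fun j => Set.range (Polynomial.derivative^[j] P).coeff) (d + 1)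
    fun j hj => ?_
  cases j with
  | zero =>
    exact (Calc.refl (hPK.trans Set.subset_union_left)).mono_c (by omega)
  | succ j =>
    show Calc M (d + 1) _ (Set.range (Polynomial.derivative^[j + 1] P).coeff)
    rw [Function.iterate_succ_apply']
    refine Calc.pder ?_ (natDegree_iterate_derivative_le' hP j)
      (fun i => (totalDegree_iterate_derivative hPm j i).trans hM)
    intro q hq
    exact Or.inr ⟨j, by omega, hq⟩

/-- Bounds for products of small powers. -/
theorem prod_bounds {G : ℕ → Polynomial (MvPolynomial σ ℤ)} {m d : ℕ}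
    (hG : ∀ j, (G j).natDegree ≤ d) (hGm : ∀ j i, ((G j).coeff i).totalDegree ≤ m)
    {α : ℕ → ℕ} (hα : ∀ j, α j ≤ 2) (t : ℕ) :
    (∏ j ∈ Finset.range t, G j ^ α j).natDegree ≤ 2 * t * d ∧
    ∀ i, ((∏ j ∈ Finset.range t, G j ^ α j).coeff i).totalDegree ≤ 2 * t * m := by
  induction t with
  | zero =>
    refine ⟨by simp, fun i => ?_⟩
    rw [Finset.prod_range_zero, Polynomial.coeff_one]
    split_ifs <;> simp
  | succ t ih =>
    have h1 : (G t ^ α t).natDegree ≤ 2 * d :=
      Polynomial.natDegree_pow_le.trans (Nat.mul_le_mul (hα t) (hG t))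
    have h2 : ∀ i, ((G t ^ α t).coeff i).totalDegree ≤ 2 * m := fun i =>
      (totalDegree_coeff_pow (hGm t) (α t) i).trans (Nat.mul_le_mul_right _ (hα t))
    rw [Finset.prod_range_succ]
    refine ⟨?_, fun i => ?_⟩
    · refine Polynomial.natDegree_mul_le.trans ?_
      calc _ ≤ 2 * t * d + 2 * d := add_le_add ih.1 h1
        _ = 2 * (t + 1) * d := by ring
    · refine (totalDegree_coeff_mul ih.2 h2 i).trans (le_of_eq (by ring))

theorem Calc.prodPow {G : ℕ → Polynomial (MvPolynomial σ ℤ)} {m d k N M : ℕ}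
    {K : Set (MvPolynomial σ ℤ)}
    (hG : ∀ j, (G j).natDegree ≤ d) (hGm : ∀ j i, ((G j).coeff i).totalDegree ≤ m)
    (hGK : ∀ j < k, Set.range (G j).coeff ⊆ K)
    {α : ℕ → ℕ} (hα : ∀ j, α j ≤ 2) (hN : 2 * k * d ≤ N) (hM : 2 * k * m ≤ M) :
    Calc M (k * (6 * (N + 1) ^ 2)) K
      (Set.range (∏ j ∈ Finset.range k, G j ^ α j).coeff) := by
  rcases Nat.eq_zero_or_pos k with rfl | hk
  · refine (Calc.zero_one (M := M) (K := K)).mono le_rfl (by omega) subset_rfl ?_
    rintro _ ⟨i, rfl⟩
    rw [Finset.prod_range_zero, Polynomial.coeff_one]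
    split_ifs
    · right; rfl
    · left; rfl
  have h1 : Calc M (k * (6 * (N + 1) ^ 2)) K
      {q | ∃ t < k, q ∈ Set.range (∏ j ∈ Finset.range (t + 1), G j ^ α j).coeff} := by
    refine Calc.iter (P := fun t => Set.range (∏ j ∈ Finset.range (t + 1), G j ^ α j).coeff) k
      fun t ht => ?_
    have hb := prod_bounds hG hGm hα t
    have hb' := prod_bounds hG hGm hα (t + 1)
    show Calc M (6 * (N + 1) ^ 2) _ (Set.range (∏ j ∈ Finset.range (t + 1), G j ^ α j).coeff)
    set K' := K ∪ {q | ∃ j < t, q ∈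
      (fun t => Set.range (∏ j ∈ Finset.range (t + 1), G j ^ α j).coeff) j} with hK'
    have c0 : Calc M 0 K' (Set.range (∏ j ∈ Finset.range t, G j ^ α j).coeff) := by
      rcases Nat.eq_zero_or_pos t with rfl | ht0
      · refine Calc.zero_one.mono_P ?_
        rintro _ ⟨i, rfl⟩
        rw [Finset.prod_range_zero, Polynomial.coeff_one]
        split_ifs
        · right; rfl
        · left; rfl
      · refine Calc.refl fun q hq => Or.inr ⟨t - 1, by omega, ?_⟩
        simp only
        rwa [Nat.sub_add_cancel ht0]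
    have c1 : Calc M (2 * (2 * (N + 1) ^ 2)) K' {q | ∃ j < 2 + 1, ∃ i, q = (G t ^ j).coeff i} := by
      refine Calc.ppow (a := m) ((hGK t ht).trans Set.subset_union_left) ?_ (hGm t) ?_
      · calc 2 * (G t).natDegree ≤ 2 * 1 * d := by
              have := hG t
              omega
          _ ≤ 2 * k * d := by gcongr; omega
          _ ≤ N := hN
      · calc 2 * m = 2 * 1 * m := by ring
          _ ≤ 2 * k * m := by gcongr; omega
          _ ≤ M := hM
    have c2 := c0.union c1
    rw [Finset.prod_range_succ]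
    have h5 : ∀ i, ((G t ^ α t).coeff i).totalDegree ≤ 2 * m := fun i =>
      (totalDegree_coeff_pow (hGm t) (α t) i).trans (Nat.mul_le_mul_right _ (hα t))
    refine (c2.trans' (Calc.pmul (N := N) (a := 2 * t * m) (b := 2 * m)
      (Set.subset_union_left.trans Set.subset_union_right) ?_ ?_ hb.2 h5 ?_)).mono_c
      (le_of_eq (by ring))
    · rintro _ ⟨i, rfl⟩
      exact Or.inr (Or.inr ⟨α t, by have := hα t; omega, i, rfl⟩)
    · rw [← Finset.prod_range_succ]
      refine hb'.1.trans (le_trans ?_ hN)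
      gcongr; omega
    · calc 2 * t * m + 2 * m = 2 * (t + 1) * m := by ring
        _ ≤ 2 * k * m := by gcongr; omega
        _ ≤ M := hM
  refine h1.mono_P ?_
  rintro _ ⟨i, rfl⟩
  refine ⟨k - 1, by omega, i, ?_⟩
  rw [Nat.sub_add_cancel hk]

/-- SIGN. -/
theorem Dec.signs {m d M : ℕ} {K : Set (MvPolynomial σ ℤ)} {D : Set (σ → ℝ)}
    (P G : Polynomial (MvPolynomial σ ℤ)) (hP : P.natDegree ≤ d) (hG : G.natDegree ≤ d)
    (hPK : Set.range P.coeff ⊆ K) (hGK : Set.range G.coeff ⊆ K)
    (hPm : ∀ i, (P.coeff i).totalDegree ≤ m) (hGm : ∀ i, (G.coeff i).totalDegree ≤ m)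
    (hM : 64 * (d + 2) ^ 5 * m ≤ M) :
    Dec M ((d + 2) ^ 32) K D
      (fun y => (rootList (spec P y)).map fun z => SignType.sign ((spec G y).eval z)) := by
  classical
  set k := d + 2 with hk
  set N := 2 * k * d with hN
  set d' := 2 * k ^ 2 with hd'
  have hNd' : N ≤ d' := by rw [hN, hd', hk]; nlinarith
  have hdd' : d ≤ d' := by rw [hd', hk]; nlinarith
  have hmM : m ≤ M := by
    refine le_trans ?_ hM
    have : 1 ≤ 64 * k ^ 5 := Nat.one_le_iff_ne_zero.2 (by positivity)
    calc m = 1 * m := (one_mul m).symm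
      _ ≤ _ := Nat.mul_le_mul_right _ this
  have hthd : ∀ j, (thG d P G j).natDegree ≤ d := by
    intro j
    rw [thG]
    split_ifs
    · exact natDegree_iterate_derivative_le' hP j
    · exact hG
  have hthm : ∀ j i, ((thG d P G j).coeff i).totalDegree ≤ m := by
    intro j i
    rw [thG]
    split_ifs
    · exact totalDegree_iterate_derivative hPm j i
    · exact hGm i
  have c0 := Calc.ders (M := M) hP hPK hPm hmM
  set K₁ := K ∪ {q | ∃ j < d + 1, q ∈ Set.range (Polynomial.derivative^[j] P).coeff} with hK₁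
  have hthK : ∀ j < k, Set.range (thG d P G j).coeff ⊆ K₁ := by
    intro j hj q hq
    rw [thG] at hq
    split_ifs at hq with h
    · exact Or.inr ⟨j, by omega, hq⟩
    · exact Or.inl (hGK hq)
  have oracle : ∀ α, Adm k α → Dec M (k * (6 * (N + 1) ^ 2) + 200 * (d' + 1) ^ 4) K₁ D
      (fun y => ∑ z ∈ (spec P y).roots.toFinset,
        ((SignType.sign ((spec (∏ j ∈ Finset.range k, thG d P G j ^ α j) y).eval z) :
          SignType) : ℤ)) := by
    intro α hα
    have hb := prod_bounds hthd hthm (fun j => (hα j).1) k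
    have c1 := Calc.prodPow (K := K₁) (M := M) hthd hthm hthK (fun j => (hα j).1) (le_refl N) (by
      refine le_trans (Nat.mul_le_mul_right _ ?_) hM
      calc 2 * k = 2 * k ^ 1 := by ring
        _ ≤ 64 * k ^ 5 := by gcongr <;> omega)
    refine c1.dec ?_
    refine Dec.taq (m := 2 * k * m) P _ (hP.trans hdd') (hb.1.trans hNd')
      (fun i _ => Or.inl (Or.inl (hPK ⟨i, rfl⟩))) (fun i _ => Or.inr ⟨i, rfl⟩)
      (fun i => (hPm i).trans ?_) hb.2 ?_
    · calc m = 1 * m := (one_mul m).symm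
        _ ≤ 2 * k * m := Nat.mul_le_mul_right _ (by omega)
    · refine le_trans ?_ hM
      rw [← mul_assoc]
      refine Nat.mul_le_mul_right _ ?_
      have h2 : d' + 1 ≤ 2 * k ^ 2 + k ^ 2 / 4 + 1 := by rw [hd']; omega
      have h3 : 4 ≤ k ^ 2 := by nlinarith
      have h4 : 4 * (d' + 1) ≤ 9 * k ^ 2 := by rw [hd']; omega
      have h5 : 16 * (d' + 1) ^ 2 ≤ 81 * k ^ 4 := by
        calc 16 * (d' + 1) ^ 2 = (4 * (d' + 1)) ^ 2 := by ring
          _ ≤ (9 * k ^ 2) ^ 2 := Nat.pow_le_pow_left h4 2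
          _ = 81 * k ^ 4 := by ring
      have h6 : 4 * (d' + 1) ^ 2 * (2 * k) * 2 = 16 * (d' + 1) ^ 2 * k := by ring
      have h7 : 16 * (d' + 1) ^ 2 * k ≤ 81 * k ^ 4 * k := Nat.mul_le_mul_right _ h5
      have h8 : 81 * k ^ 4 * k = 81 * k ^ 5 := by ring
      omega
  have hZ : ∀ y ∈ D, ((spec P y).roots.toFinset).card ≤ d := by
    intro y _
    exact (Multiset.toFinset_card_le _).trans ((Polynomial.card_roots' _).trans
      ((natDegree_spec_le P y).trans hP))
  have h1 := Dec.bkr (fun y => (spec P y).roots.toFinset) (thG d P G) hZ k oracle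
  have h2 := (c0.dec h1)
  refine (h2.mono_c ?_).factor fun x hx y hy hxy => ?_
  · -- the cost
    have hk2 : 2 ≤ k := by omega
    have e1 : N + 1 ≤ 2 * k ^ 2 := by rw [hN, hk]; nlinarith
    have e2 : d' + 1 ≤ 4 * k ^ 2 := by rw [hd']; nlinarith
    have e3 : k * (6 * (N + 1) ^ 2) ≤ k * (6 * (2 * k ^ 2) ^ 2) := by gcongr
    have e4 : 200 * (d' + 1) ^ 4 ≤ 200 * (4 * k ^ 2) ^ 4 := by gcongr
    set ct := k * (6 * (N + 1) ^ 2) + 200 * (d' + 1) ^ 4 with hct
    have e5 : ct ≤ 60000 * k ^ 8 := by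
      have h3 : k * (6 * (2 * k ^ 2) ^ 2) = 24 * k ^ 5 := by ring
      have h4 : 200 * (4 * k ^ 2) ^ 4 = 51200 * k ^ 8 := by ring
      have h5 : k ^ 5 ≤ k ^ 8 := Nat.pow_le_pow_right (by omega) (by norm_num)
      omega
    have e6 : (d + 1) * (d + 1) + (ct + k * (3 * d * ct)) ≤ 8 * k ^ 2 * (60000 * k ^ 8) := by
      have h3 : (d + 1) * (d + 1) ≤ k ^ 2 * (60000 * k ^ 8) := by
        have : 1 ≤ 60000 * k ^ 8 := Nat.one_le_iff_ne_zero.2 (by positivity)
        calc (d + 1) * (d + 1) ≤ k * k := Nat.mul_le_mul (by omega) (by omega)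
          _ = k ^ 2 * 1 := by ring
          _ ≤ _ := Nat.mul_le_mul_left _ this
      have h4 : k * (3 * d * ct) ≤ 3 * k ^ 2 * (60000 * k ^ 8) := by
        calc k * (3 * d * ct) = 3 * (k * d) * ct := by ring
          _ ≤ 3 * (k * k) * (60000 * k ^ 8) := by gcongr; omega
          _ = _ := by ring
      have h5 : ct ≤ k ^ 2 * (60000 * k ^ 8) := by
        calc ct ≤ 1 * (60000 * k ^ 8) := by rw [one_mul]; exact e5
          _ ≤ _ := Nat.mul_le_mul_right _ (Nat.one_le_iff_ne_zero.2 (by positivity))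
      nlinarith
    refine e6.trans ?_
    have e7 : 8 * k ^ 2 * (60000 * k ^ 8) = 480000 * k ^ 10 := by ring
    have e8 : 480000 ≤ k ^ 19 := by
      calc 480000 ≤ 2 ^ 19 := by norm_num
        _ ≤ k ^ 19 := Nat.pow_le_pow_left hk2 19
    rw [e7]
    calc 480000 * k ^ 10 ≤ k ^ 19 * k ^ 10 := Nat.mul_le_mul_right _ e8
      _ = k ^ 29 := by rw [← pow_add]
      _ ≤ k ^ 32 := Nat.pow_le_pow_right (by omega) (by norm_num)
  · refine thom_sorted ((natDegree_spec_le P x).trans hP) ((natDegree_spec_le P y).trans hP) ?_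
    have hder : ∀ (y : σ → ℝ) (j : ℕ), spec (Polynomial.derivative^[j] P) y =
        Polynomial.derivative^[j] (spec P y) := by
      intro y j
      rw [spec, spec, Polynomial.iterate_derivative_map]
    have h3 : ∀ y : σ → ℝ, (spec P y).roots.toFinset.val.map (thomVec d (spec P y) (spec G y)) =
        ((spec P y).roots.toFinset.val.map (svec (fun j => spec (thG d P G j) y) k)).map
          (fun v => ((fun i : Fin (d + 1) => v i), v (d + 1))) := by
      intro y
      rw [Multiset.map_map]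
      refine Multiset.map_congr rfl fun z _ => ?_
      rw [Function.comp_apply, thomVec]
      refine Prod.ext ?_ ?_
      · funext i
        simp only [svec]
        rw [if_pos (by omega), thG, if_pos (by omega), hder]
      · simp only [svec]
        rw [if_pos (by omega), thG, if_neg (by omega)]
    rw [h3, h3, hxy]

end Pool.Agent.QC
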