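import Pool.Agent.QC.Sign.Herm

/-!
# The Hermite form and Tarski queries (2)
-/

namespace Pool.Agent.QC

open Polynomial Matrix

/-- The complex roots of a real polynomial, with multiplicity. -/
noncomputable def croots (P : ℝ[X]) : Multiset ℂ := (P.map (algebraMap ℝ ℂ)).roots

theorem card_croots (P : ℝ[X]) : (croots P).card = P.natDegree := by
  rw [croots, ← (IsAlgClosed.splits (P.map (algebraMap ℝ ℂ))).natDegree_eq_card_roots,
    natDegree_map]

theorem eval_map_conj (P : ℝ[X]) (z : ℂ) :
    (P.map (algebraMap ℝ ℂ)).eval ((starRingEnd ℂ) z) =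
      (starRingEnd ℂ) ((P.map (algebraMap ℝ ℂ)).eval z) := by
  rw [eval_map, eval_map, hom_eval₂]
  congr 1
  ext x
  simp

theorem map_conj_map (P : ℝ[X]) :
    (P.map (algebraMap ℝ ℂ)).map (starRingEnd ℂ) = P.map (algebraMap ℝ ℂ) := by
  rw [Polynomial.map_map]
  congr 1
  ext x
  simp

theorem count_croots_conj (P : ℝ[X]) (z : ℂ) :
    (croots P).count ((starRingEnd ℂ) z) = (croots P).count z := by
  have h : (croots P).map (starRingEnd ℂ) = croots P := by
    have h1 := roots_map_of_injective_of_card_eq_natDegree (p := P.map (algebraMap ℝ ℂ))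
      (f := starRingEnd ℂ) (starRingEnd ℂ).injective (by
        have := card_croots P
        rw [croots] at this
        rw [this, natDegree_map])
    rw [map_conj_map] at h1
    exact h1
  conv_lhs => rw [← h]
  exact Multiset.count_map_eq_count' _ _ (starRingEnd ℂ).injective _

theorem mem_croots {P : ℝ[X]} (hP : P ≠ 0) {z : ℂ} :
    z ∈ croots P ↔ (P.map (algebraMap ℝ ℂ)).eval z = 0 := by
  rw [croots, mem_roots (by simpa using hP), IsRoot.def]

theorem herm_taq (P G : ℝ[X]) (hP : P ≠ 0) {n : ℕ} (hn : P.natDegree = n) (a c : ℝ) (ha : a ≠ 0)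
    (hc : 0 < c) (H : Matrix (Fin n) (Fin n) ℝ)
    (h : ∀ i j, ((H i j : ℝ) : ℂ) = c * ((croots P).map
      (fun z => (G.map (algebraMap ℝ ℂ)).eval z * (a * z) ^ (i.1 + j.1))).sum) :
    H.IsHermitian ∧
    ((H.charpoly.roots.countP (0 < ·) : ℤ) - H.charpoly.roots.countP (· < 0)) = taq P G := by
  classical
  have hH : H.IsHermitian := by
    ext i j
    rw [conjTranspose_apply, star_trivial]
    have : ((H j i : ℝ) : ℂ) = H i j := by
      rw [h, h, add_comm]
    exact_mod_cast this
  refine ⟨hH, ?_⟩
  set S : Finset ℂ := (croots P).toFinset with hS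
  have hSc : ∀ z ∈ S, (starRingEnd ℂ) z ∈ S := by
    intro z hz
    rw [hS, Multiset.mem_toFinset] at hz ⊢
    rw [← Multiset.count_pos] at hz ⊢
    rwa [count_croots_conj]
  have hScard : S.card ≤ n := by
    rw [← hn, ← card_croots P]
    exact Multiset.toFinset_card_le _
  -- extra real points
  have hinf : ({x : ℝ | (x : ℂ) ∉ S} : Set ℝ).Infinite := by
    have hfin : ({x : ℝ | (x : ℂ) ∈ S} : Set ℝ).Finite :=
      Set.Finite.preimage (Complex.ofReal_injective.injOn) S.finite_toSet
    exact hfin.infinite_compl
  obtain ⟨T, hT, hTc⟩ := hinf.exists_subset_card_eq (n - S.card)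
  have hinj : Function.Injective (fun x : ℝ => (x : ℂ)) := Complex.ofReal_injective
  have hdis : Disjoint S (T.image (fun x : ℝ => (x : ℂ))) := by
    rw [Finset.disjoint_right]
    intro z hz
    obtain ⟨x, hx, rfl⟩ := Finset.mem_image.1 hz
    exact hT hx
  set W : Finset ℂ := S ∪ T.image (fun x : ℝ => (x : ℂ)) with hW
  have hWcard : W.card = n := by
    rw [hW, Finset.card_union_of_disjoint hdis, Finset.card_image_of_injective _ hinj, hTc]
    omega
  have hWc : ∀ z ∈ W, (starRingEnd ℂ) z ∈ W := by
    intro z hz
    rcases Finset.mem_union.1 hz with hz | hz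
    · exact Finset.mem_union_left _ (hSc z hz)
    · obtain ⟨x, hx, rfl⟩ := Finset.mem_image.1 hz
      rw [Complex.conj_ofReal]
      exact Finset.mem_union_right _ (Finset.mem_image_of_mem _ hx)
  let g : ℂ → ℂ := fun z => c * ((croots P).count z * (G.map (algebraMap ℝ ℂ)).eval z)
  have hg : ∀ z, g ((starRingEnd ℂ) z) = (starRingEnd ℂ) (g z) := by
    intro z
    simp only [g, count_croots_conj, eval_map_conj, map_mul, Complex.conj_ofReal, map_natCast]
  have key := countP_of_conj H hH W hWc hWcard a ha g hg ?_
  · rw [key.1]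
    -- only real roots count
    have h1 : ∑ z ∈ W, (if z.im = 0 then (SignType.sign (g z).re : ℤ) else 0) =
        ∑ z ∈ (P.roots.toFinset).image (fun x : ℝ => (x : ℂ)),
          (if z.im = 0 then (SignType.sign (g z).re : ℤ) else 0) := by
      symm
      refine Finset.sum_subset ?_ ?_
      · intro z hz
        obtain ⟨x, hx, rfl⟩ := Finset.mem_image.1 hz
        refine Finset.mem_union_left _ ?_
        rw [hS, Multiset.mem_toFinset, mem_croots hP]
        rw [Multiset.mem_toFinset, mem_roots hP, IsRoot.def] at hx
        rw [eval_map, ← Complex.coe_algebraMap, eval₂_at_apply, hx, map_zero]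
      · intro z hz hz2
        split_ifs with him
        · have hzr : z = (z.re : ℂ) := Complex.ext (by simp) (by simpa using him)
          have hcount : (croots P).count z = 0 := by
            rw [Multiset.count_eq_zero]
            intro hmem
            apply hz2
            rw [mem_croots hP, hzr, eval_map, ← Complex.coe_algebraMap, eval₂_at_apply] at hmem
            rw [hzr]
            refine Finset.mem_image_of_mem _ ?_
            rw [Multiset.mem_toFinset, mem_roots hP, IsRoot.def]
            exact (map_eq_zero (algebraMap ℝ ℂ)).1 hmem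
          simp [g, hcount]
        · rfl
    rw [h1, Finset.sum_image (fun x _ y _ h => hinj h), taq]
    refine Finset.sum_congr rfl fun x hx => ?_
    rw [if_pos (Complex.ofReal_im x)]
    have hcount : 0 < (croots P).count (x : ℂ) := by
      rw [Multiset.count_pos, mem_croots hP]
      rw [Multiset.mem_toFinset, mem_roots hP, IsRoot.def] at hx
      rw [eval_map, ← Complex.coe_algebraMap, eval₂_at_apply, hx, map_zero]
    have h2 : (g (x : ℂ)).re = c * ((croots P).count (x : ℂ) * G.eval x) := by
      have h3 : (G.map (algebraMap ℝ ℂ)).eval (x : ℂ) = ((G.eval x : ℝ) : ℂ) := by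
        rw [eval_map, ← Complex.coe_algebraMap, eval₂_at_apply]
      simp only [g, h3]
      rw [← Complex.ofReal_natCast, ← Complex.ofReal_mul, ← Complex.ofReal_mul, Complex.ofReal_re]
    rw [h2, sign_mul, sign_mul, sign_pos hc, sign_pos (by exact_mod_cast hcount)]
    simp
  · intro i j
    rw [h, Finset.sum_multiset_map_count]
    rw [Finset.mul_sum, ← hS]
    have h4 : ∑ z ∈ W, g z * (a * z) ^ (i.1 + j.1) = ∑ z ∈ S, g z * (a * z) ^ (i.1 + j.1) := by
      symm
      refine Finset.sum_subset Finset.subset_union_left ?_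
      intro z _ hz
      have : (croots P).count z = 0 := by
        rw [Multiset.count_eq_zero, ← Multiset.mem_toFinset]
        exact hz
      simp [g, this]
    rw [h4]
    refine Finset.sum_congr rfl fun z _ => ?_
    simp only [g, nsmul_eq_mul]
    ring

end Pool.Agent.QC
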