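import Pool.Agent.QC.Root
import Pool.Agent.QC.Sign.Herm2

/-!
# The Ben-Or-Kozen-Reif reduction
-/

namespace Pool.Agent.QC

/-- The monomial of exponent `α` in the first `i` signs. -/
def smono (i : ℕ) (α : ℕ → ℕ) (s : ℕ → SignType) : ℚ :=
  ∏ j ∈ Finset.range i, (((s j : SignType) : ℤ) : ℚ) ^ α j

/-- Admissible exponents. -/
def Adm (i : ℕ) (α : ℕ → ℕ) : Prop := ∀ j, α j ≤ 2 ∧ (i ≤ j → α j = 0)

theorem smono_succ (i : ℕ) (α : ℕ → ℕ) (s : ℕ → SignType) :
    smono (i + 1) α s = smono i α s * (((s i : SignType) : ℤ) : ℚ) ^ α i := by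
  rw [smono, Finset.prod_range_succ, smono]

/-- The coefficients of the interpolation polynomials on `{-1, 0, 1}`. -/
def icoef (s : SignType) (e : ℕ) : ℚ :=
  if s = 0 then (if e = 0 then 1 else if e = 2 then -1 else 0)
  else if s = 1 then (if e = 1 then 1 / 2 else if e = 2 then 1 / 2 else 0)
  else (if e = 1 then -1 / 2 else if e = 2 then 1 / 2 else 0)

theorem icoef_sum (s t : SignType) :
    ∑ e ∈ Finset.range 3, icoef s e * (((t : SignType) : ℤ) : ℚ) ^ e = if s = t then 1 else 0 := by
  cases s <;> cases t <;>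
    simp [Finset.sum_range_succ, icoef, show ((-1 : SignType) = 0) = False by decide,
      show ((-1 : SignType) = 1) = False by decide, show ((1 : SignType) = -1) = False by decide,
      show ((1 : SignType) = 0) = False by decide, show ((0 : SignType) = 1) = False by decide,
      show ((0 : SignType) = -1) = False by decide] <;> norm_num

theorem prod_mem_span (i : ℕ) (c : ℕ → ℕ → ℚ) :
    (fun s : ℕ → SignType => ∏ j ∈ Finset.range i,
      ∑ e ∈ Finset.range 3, c j e * (((s j : SignType) : ℤ) : ℚ) ^ e) ∈
    Submodule.span ℚ {f : (ℕ → SignType) → ℚ | ∃ α, Adm i α ∧ f = smono i α} := by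
  induction i with
  | zero =>
    refine Submodule.subset_span ⟨fun _ => 0, fun j => by simp, ?_⟩
    funext s; simp [smono]
  | succ i ih =>
    have key : ∀ f ∈ Submodule.span ℚ {f : (ℕ → SignType) → ℚ | ∃ α, Adm i α ∧ f = smono i α},
        ∀ e < 3, (fun s => f s * (((s i : SignType) : ℤ) : ℚ) ^ e) ∈
          Submodule.span ℚ {f : (ℕ → SignType) → ℚ | ∃ α, Adm (i + 1) α ∧ f = smono (i + 1) α} := by
      intro f hf e he
      induction hf using Submodule.span_induction with
      | mem f hf =>
        obtain ⟨α, hα, rfl⟩ := hf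
        refine Submodule.subset_span ⟨Function.update α i e, fun j => ?_, ?_⟩
        · by_cases hj : j = i
          · subst hj; simp; omega
          · rw [Function.update_of_ne hj]
            exact ⟨(hα j).1, fun h => (hα j).2 (by omega)⟩
        · funext s
          rw [smono_succ]
          congr 1
          · rw [smono, smono]
            refine Finset.prod_congr rfl fun j hj => ?_
            rw [Function.update_of_ne]
            have := Finset.mem_range.1 hj
            omega
          · simp
      | zero => simp; exact Submodule.zero_mem _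
      | add f g _ _ hf hg =>
        have : (fun s => (f + g) s * (((s i : SignType) : ℤ) : ℚ) ^ e) =
            (fun s => f s * (((s i : SignType) : ℤ) : ℚ) ^ e) +
            (fun s => g s * (((s i : SignType) : ℤ) : ℚ) ^ e) := by
          funext s; simp [add_mul]
        rw [this]; exact Submodule.add_mem _ hf hg
      | smul a f _ hf =>
        have : (fun s => (a • f) s * (((s i : SignType) : ℤ) : ℚ) ^ e) =
            a • (fun s => f s * (((s i : SignType) : ℤ) : ℚ) ^ e) := by
          funext s; simp [mul_assoc]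
        rw [this]; exact Submodule.smul_mem _ _ hf
    have h2 : (fun s : ℕ → SignType => ∏ j ∈ Finset.range (i + 1),
        ∑ e ∈ Finset.range 3, c j e * (((s j : SignType) : ℤ) : ℚ) ^ e) =
        ∑ e ∈ Finset.range 3, c i e • (fun s : ℕ → SignType => (∏ j ∈ Finset.range i,
        ∑ e ∈ Finset.range 3, c j e * (((s j : SignType) : ℤ) : ℚ) ^ e) *
          (((s i : SignType) : ℤ) : ℚ) ^ e) := by
      funext s
      rw [Finset.prod_range_succ, Finset.mul_sum, Finset.sum_apply]
      refine Finset.sum_congr rfl fun e _ => ?_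
      simp; ring
    rw [h2]
    exact Submodule.sum_mem _ fun e he => Submodule.smul_mem _ _
      (key _ ih e (Finset.mem_range.1 he))

theorem exists_sep (i : ℕ) (Su : Finset (ℕ → SignType))
    (hS : ∀ s ∈ Su, ∀ t ∈ Su, (∀ j < i, s j = t j) → s = t) :
    ∃ E : Finset (ℕ → ℕ), E.card ≤ Su.card ∧ (∀ α ∈ E, Adm i α) ∧
      ∀ ν : (ℕ → SignType) → ℚ, (∀ α ∈ E, ∑ s ∈ Su, ν s * smono i α s = 0) →
        ∀ s ∈ Su, ν s = 0 := by
  classical
  let res : ((ℕ → SignType) → ℚ) →ₗ[ℚ] (Su → ℚ) :=
    { toFun := fun f s => f s, map_add' := fun _ _ => rfl, map_smul' := fun _ _ => rfl }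
  let T : Set (Su → ℚ) := {f | ∃ α, Adm i α ∧ f = res (smono i α)}
  have hT : Submodule.span ℚ T = ⊤ := by
    rw [eq_top_iff]
    intro f _
    have hf : f = ∑ s : Su, f s • (Pi.single s (1 : ℚ) : Su → ℚ) := by
      funext t
      simp [Finset.sum_apply, Pi.single_apply]
    rw [hf]
    refine Submodule.sum_mem _ fun s _ => Submodule.smul_mem _ _ ?_
    have h1 := prod_mem_span i (fun j => icoef (s.1 j))
    have h2 := Submodule.mem_map_of_mem (f := res) h1
    rw [Submodule.map_span] at h2
    have h3 : (res '' {f | ∃ α, Adm i α ∧ f = smono i α}) = T := by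
      ext g
      constructor
      · rintro ⟨f, ⟨α, hα, rfl⟩, rfl⟩
        exact ⟨α, hα, rfl⟩
      · rintro ⟨α, hα, rfl⟩
        exact ⟨_, ⟨α, hα, rfl⟩, rfl⟩
    rw [h3] at h2
    convert h2 using 1
    funext t
    show _ = ∏ j ∈ Finset.range i, ∑ e ∈ Finset.range 3,
      icoef (s.1 j) e * (((t.1 j : SignType) : ℤ) : ℚ) ^ e
    simp_rw [icoef_sum]
    rw [Finset.prod_ite_zero, Finset.prod_const_one, Pi.single_apply]
    by_cases hst : t = s
    · subst hst; simp
    · rw [if_neg hst, if_neg]
      intro h
      apply hst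
      exact Subtype.ext (hS t.1 t.2 s.1 s.2 fun j hj => (h j (Finset.mem_range.2 hj)).symm)
  obtain ⟨b, hb1, hb2, hb3⟩ := exists_linearIndependent ℚ T
  have hbf : b.Finite := hb3.setFinite
  have hbc : hbf.toFinset.card ≤ Su.card := by
    have := hb3.cardinal_le_rank
    have h4 : Module.finrank ℚ (Su → ℚ) = Su.card := by simp
    have := hbf.fintype
    have h5 := hb3.fintype_card_le_finrank
    rw [h4] at h5
    rwa [← Set.toFinset_card, ← Set.Finite.toFinset_eq_toFinset hbf] at h5
  have hch : ∀ f ∈ b, ∃ α, Adm i α ∧ f = res (smono i α) := fun f hf => hb1 hf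
  choose! φ hφ1 hφ2 using hch
  refine ⟨hbf.toFinset.image φ, (Finset.card_image_le).trans hbc, ?_, ?_⟩
  · intro α hα
    obtain ⟨f, hf, rfl⟩ := Finset.mem_image.1 hα
    exact hφ1 f (by simpa using hf)
  · intro ν hν
    let Λ : (Su → ℚ) →ₗ[ℚ] ℚ :=
      { toFun := fun f => ∑ s : Su, ν s * f s
        map_add' := by intro f g; simp [mul_add, Finset.sum_add_distrib]
        map_smul' := by
          intro c f
          simp only [Pi.smul_apply, smul_eq_mul, RingHom.id_apply, Finset.mul_sum]
          exact Finset.sum_congr rfl fun s _ => by ring }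
    have hΛ : Λ = 0 := by
      refine LinearMap.ext_on_range (v := ((↑) : b → (Su → ℚ))) ?_ ?_
      · rw [Subtype.range_coe, hb2, hT]
      · intro f
        have h6 := hν (φ f) (Finset.mem_image_of_mem _ (by simp))
        rw [LinearMap.zero_apply, ← h6, ← Finset.sum_coe_sort Su]
        conv_lhs => rw [hφ2 f f.2]
        rfl
    intro s hs
    have h7 : Λ (Pi.single ⟨s, hs⟩ 1) = 0 := by rw [hΛ]; rfl
    simpa [Λ, Pi.single_apply] using h7

/-- The signs of the first `k` polynomials at `z`. -/
noncomputable def svec (G : ℕ → Polynomial ℝ) (k : ℕ) (z : ℝ) : ℕ → SignType :=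
  fun j => if j < k then SignType.sign ((G j).eval z) else 0

theorem svec_succ_eq (G : ℕ → Polynomial ℝ) (k : ℕ) (z : ℝ) :
    svec G (k + 1) z = Function.update (svec G k z) k (SignType.sign ((G k).eval z)) := by
  funext j
  by_cases hj : j = k
  · subst hj; simp [svec]
  · rw [Function.update_of_ne hj, svec, svec]
    by_cases h : j < k
    · rw [if_pos h, if_pos (by omega)]
    · rw [if_neg h, if_neg (by omega)]

theorem smono_congr {i : ℕ} {α β : ℕ → ℕ} {s t : ℕ → SignType} (h1 : ∀ j < i, α j = β j)
    (h2 : ∀ j < i, s j = t j) : smono i α s = smono i β t := by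
  rw [smono, smono]
  refine Finset.prod_congr rfl fun j hj => ?_
  rw [h1 j (Finset.mem_range.1 hj), h2 j (Finset.mem_range.1 hj)]

theorem sign_prod_eval (G : ℕ → Polynomial ℝ) (k : ℕ) (α : ℕ → ℕ) (z : ℝ) :
    ((((SignType.sign ((∏ j ∈ Finset.range k, G j ^ α j).eval z) : SignType) : ℤ)) : ℚ) =
      smono k α (svec G k z) := by
  induction k with
  | zero => simp [smono]
  | succ k ih =>
    rw [Finset.prod_range_succ, Polynomial.eval_mul, sign_mul, smono_succ]
    have h1 : smono k α (svec G (k + 1) z) = smono k α (svec G k z) := by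
      refine smono_congr (fun _ _ => rfl) fun j hj => ?_
      rw [svec_succ_eq, Function.update_of_ne (by omega)]
    rw [h1, ← ih, svec_succ_eq, Function.update_self]
    push_cast
    rw [Polynomial.eval_pow, sign_pow]
    push_cast
    ring

/-- The step from `k` to `k + 1` polynomials. -/
theorem bkr_step {Z Z' : Finset ℝ} {G G' : ℕ → Polynomial ℝ} {k : ℕ}
    (h : Z.val.map (svec G k) = Z'.val.map (svec G' k)) (Su : Finset (ℕ → SignType))
    (hSu : ∀ z ∈ Z, svec G k z ∈ Su) (E : Finset (ℕ → ℕ)) (hE : ∀ α ∈ E, Adm k α)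
    (hν : ∀ ν : (ℕ → SignType) → ℚ, (∀ α ∈ E, ∑ s ∈ Su, ν s * smono k α s = 0) →
        ∀ s ∈ Su, ν s = 0)
    (hq : ∀ α ∈ E, ∀ e < 3,
      ∑ z ∈ Z, smono (k + 1) (Function.update α k e) (svec G (k + 1) z) =
      ∑ z ∈ Z', smono (k + 1) (Function.update α k e) (svec G' (k + 1) z)) :
    Z.val.map (svec G (k + 1)) = Z'.val.map (svec G' (k + 1)) := by
  classical
  have hSu' : ∀ z ∈ Z', svec G' k z ∈ Su := by
    intro z hz
    have : svec G' k z ∈ Z.val.map (svec G k) := by
      rw [h]; exact Multiset.mem_map_of_mem _ hz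
    obtain ⟨w, hw, hw2⟩ := Multiset.mem_map.1 this
    rw [← hw2]; exact hSu w hw
  -- partial moments
  let mom : Finset ℝ → (ℕ → Polynomial ℝ) → ℕ → (ℕ → SignType) → ℚ := fun Y H e s =>
    ∑ z ∈ Y with svec H k z = s, (((SignType.sign ((H k).eval z) : SignType) : ℤ) : ℚ) ^ e
  have hmom : ∀ (Y : Finset ℝ) (H : ℕ → Polynomial ℝ), (∀ z ∈ Y, svec H k z ∈ Su) →
      ∀ α e, ∑ z ∈ Y, smono (k + 1) (Function.update α k e) (svec H (k + 1) z) =
        ∑ s ∈ Su, mom Y H e s * smono k α s := by
    intro Y H hY α e
    rw [← Finset.sum_fiberwise_of_maps_to (g := svec H k) (t := Su) hY]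
    refine Finset.sum_congr rfl fun s _ => ?_
    rw [Finset.sum_mul]
    refine Finset.sum_congr rfl fun z hz => ?_
    have hz2 := (Finset.mem_filter.1 hz).2
    rw [smono_succ, Function.update_self, svec_succ_eq, Function.update_self, mul_comm]
    congr 1
    rw [← hz2]
    refine smono_congr (fun j hj => by rw [Function.update_of_ne (by omega)])
      (fun j hj => by rw [Function.update_of_ne (by omega)])
  have hz : ∀ e < 3, ∀ s ∈ Su, mom Z G e s - mom Z' G' e s = 0 := by
    intro e he
    refine hν (fun s => mom Z G e s - mom Z' G' e s) fun α hα => ?_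
    have h1 := hq α hα e he
    rw [hmom Z G hSu, hmom Z' G' hSu'] at h1
    simp only [sub_mul, Finset.sum_sub_distrib]
    rw [h1, sub_self]
  -- counts
  have hcount : ∀ (Y : Finset ℝ) (H : ℕ → Polynomial ℝ) (s : ℕ → SignType) (τ : SignType),
      (((Y.filter fun z => svec H k z = s ∧ SignType.sign ((H k).eval z) = τ).card : ℕ) : ℚ) =
        ∑ e ∈ Finset.range 3, icoef τ e * mom Y H e s := by
    intro Y H s τ
    simp only [mom, Finset.mul_sum]
    rw [Finset.sum_comm]
    simp_rw [icoef_sum]
    rw [← Finset.filter_filter, Finset.card_filter]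
    push_cast
    refine Finset.sum_congr rfl fun z _ => ?_
    by_cases hzt : SignType.sign ((H k).eval z) = τ
    · rw [if_pos hzt, if_pos hzt.symm]
    · rw [if_neg hzt, if_neg (Ne.symm hzt)]
  ext w
  have hcw : ∀ (Y : Finset ℝ) (H : ℕ → Polynomial ℝ),
      (Y.val.map (svec H (k + 1))).count w =
        if (∀ j, k < j → w j = 0) then
          (Y.filter fun z => svec H k z = Function.update w k 0 ∧
            SignType.sign ((H k).eval z) = w k).card
        else 0 := by
    intro Y H
    rw [Multiset.count_map, ← Finset.filter_val, Finset.card_val]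
    split_ifs with hw
    · congr 1
      refine Finset.filter_congr fun z _ => ?_
      rw [svec_succ_eq]
      constructor
      · rintro rfl
        refine ⟨?_, by simp⟩
        funext j
        by_cases hj : j = k
        · subst hj; simp [svec]
        · rw [Function.update_of_ne hj, Function.update_of_ne hj]
      · rintro ⟨h1, h2⟩
        rw [h1, h2]
        funext j
        by_cases hj : j = k
        · subst hj; simp
        · rw [Function.update_of_ne hj, Function.update_of_ne hj]
    · rw [Finset.card_eq_zero, Finset.filter_eq_empty_iff]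
      intro z _ hz
      apply hw
      intro j hj
      rw [hz, svec, if_neg (by omega)]
  rw [hcw, hcw]
  split_ifs with hw
  · by_cases hs : Function.update w k 0 ∈ Su
    · have h1 := hcount Z G (Function.update w k 0) (w k)
      have h2 := hcount Z' G' (Function.update w k 0) (w k)
      have h3 : ∑ e ∈ Finset.range 3, icoef (w k) e * mom Z G e (Function.update w k 0) =
          ∑ e ∈ Finset.range 3, icoef (w k) e * mom Z' G' e (Function.update w k 0) := by
        refine Finset.sum_congr rfl fun e he => ?_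
        rw [sub_eq_zero.1 (hz e (Finset.mem_range.1 he) _ hs)]
      rw [h3, ← h2] at h1
      exact_mod_cast h1
    · have h1 : (Z.filter fun z => svec G k z = Function.update w k 0 ∧
            SignType.sign ((G k).eval z) = w k) = ∅ := by
        rw [Finset.filter_eq_empty_iff]
        rintro z hz' ⟨h4, _⟩
        exact hs (h4 ▸ hSu z hz')
      have h2 : (Z'.filter fun z => svec G' k z = Function.update w k 0 ∧
            SignType.sign ((G' k).eval z) = w k) = ∅ := by
        rw [Finset.filter_eq_empty_iff]
        rintro z hz' ⟨h4, _⟩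
        exact hs (h4 ▸ hSu' z hz')
      rw [h1, h2]
  · rfl

end Pool.Agent.QC
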