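import Pool.Agent.QC.Sign.Herm2

/-!
# Power sums of the roots by Newton's recursion
-/

namespace Pool.Agent.QC

open Polynomial

section Def

variable {R : Type*} [CommRing R]

/-- `(-1)^j` times the elementary symmetric function of the numbers `a_n z`, `z` the roots of the
polynomial with coefficients `a_0, ..., a_n` (`j ≥ 1`). -/
def ec (a : ℕ → R) (n j : ℕ) : R := if j ≤ n then a (n - j) * a n ^ (j - 1) else 0

/-- Power sums of the numbers `a_n z`. -/
def ps (a : ℕ → R) (n : ℕ) : ℕ → R
  | 0 => n
  | k + 1 => -(((k + 1 : ℕ) : R) * ec a n (k + 1) +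
      ∑ j : Fin k, ec a n (j + 1) * ps a n (k - j))
termination_by k => k
decreasing_by omega

theorem ps_zero (a : ℕ → R) (n : ℕ) : ps a n 0 = n := by rw [ps]

theorem ps_succ (a : ℕ → R) (n k : ℕ) : ps a n (k + 1) =
    -(((k + 1 : ℕ) : R) * ec a n (k + 1) +
      ∑ j ∈ Finset.range k, ec a n (j + 1) * ps a n (k - j)) := by
  rw [ps, ← Fin.sum_univ_eq_sum_range (fun j => ec a n (j + 1) * ps a n (k - j)) k]

theorem map_ec {S : Type*} [CommRing S] (f : R →+* S) (a : ℕ → R) (n j : ℕ) :
    f (ec a n j) = ec (fun i => f (a i)) n j := by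
  rw [ec, ec]
  split_ifs <;> simp

theorem map_ps {S : Type*} [CommRing S] (f : R →+* S) (a : ℕ → R) (n k : ℕ) :
    f (ps a n k) = ps (fun i => f (a i)) n k := by
  induction k using Nat.strong_induction_on with
  | _ k ih =>
    cases k with
    | zero => simp [ps_zero]
    | succ k =>
      rw [ps_succ, ps_succ, map_neg, map_add, map_mul, map_natCast, map_ec, map_sum]
      congr 2
      refine Finset.sum_congr rfl fun j hj => ?_
      rw [map_mul, map_ec, ih (k - j) (by omega)]

/-- The matrix of the Hermite form, `g` of degree at most `d`. -/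
def hmat (a g : ℕ → R) (n d : ℕ) : Matrix (Fin n) (Fin n) R :=
  Matrix.of fun i j => ∑ k ∈ Finset.range (d + 1), (g k * a n ^ (2 * d - k)) * ps a n (i + j + k)

theorem map_hmat {S : Type*} [CommRing S] (f : R →+* S) (a g : ℕ → R) (n d : ℕ) :
    (hmat a g n d).map f = hmat (fun i => f (a i)) (fun i => f (g i)) n d := by
  ext i j
  simp [hmat, map_sum, map_ps]

end Def

/-- Newton's identities for multisets. -/
theorem newton_multiset {n : ℕ} (f : Fin n → ℂ) (k : ℕ) (e : ℕ → ℂ)
    (he : ∀ j, 1 ≤ j → e j = (-1) ^ j * (Finset.univ.val.map f).esymm j) :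
    ∑ i, f i ^ (k + 1) = -(((k + 1 : ℕ) : ℂ) * e (k + 1) +
      ∑ j ∈ Finset.range k, e (j + 1) * ∑ i, f i ^ (k - j)) := by
  have h := congrArg (MvPolynomial.aeval f)
    (MvPolynomial.psum_eq_mul_esymm_sub_sum (Fin n) ℂ (k + 1) (by omega))
  have hps : ∀ j, MvPolynomial.aeval f (MvPolynomial.psum (Fin n) ℂ j) = ∑ i, f i ^ j := by
    intro j; simp [MvPolynomial.psum]
  rw [hps] at h
  rw [h, map_sub, map_sum]
  rw [neg_add, sub_eq_add_neg]
  congr 1
  · rw [he (k + 1) (by omega)]
    simp only [map_mul, map_pow, map_neg, map_one, MvPolynomial.aeval_esymm_eq_multiset_esymm,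
      map_natCast, pow_succ]
    ring
  · congr 1
    refine Finset.sum_nbij' (fun a => a.1 - 1) (fun j => (j + 1, k - j)) ?_ ?_ ?_ ?_ ?_
    · intro a ha
      rw [Finset.mem_filter, Finset.HasAntidiagonal.mem_antidiagonal] at ha
      obtain ⟨h1, h2, h3⟩ := ha
      rw [Finset.mem_range]; omega
    · intro j hj
      rw [Finset.mem_range] at hj
      rw [Finset.mem_filter, Finset.HasAntidiagonal.mem_antidiagonal]
      refine ⟨by simp only; omega, ?_, ?_⟩ <;> simp only <;> omega
    · intro a ha
      rw [Finset.mem_filter, Finset.HasAntidiagonal.mem_antidiagonal] at ha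
      obtain ⟨h1, h2, h3⟩ := ha
      ext <;> simp only <;> omega
    · intro j hj
      simp
    · intro a ha
      rw [Finset.mem_filter, Finset.HasAntidiagonal.mem_antidiagonal] at ha
      obtain ⟨h1, h2, h3⟩ := ha
      simp only [map_mul, map_pow, map_neg, map_one, MvPolynomial.aeval_esymm_eq_multiset_esymm,
        hps]
      have h4 : a.1 - 1 + 1 = a.1 := by omega
      have h5 : k - (a.1 - 1) = a.2 := by omega
      rw [h4, h5, he a.1 h2]

theorem exists_fin_map {n : ℕ} (s : Multiset ℂ) (hs : s.card = n) :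
    ∃ f : Fin n → ℂ, Finset.univ.val.map f = s := by
  have h : s.toList.length = n := by rw [Multiset.length_toList, hs]
  subst h
  refine ⟨s.toList.get, ?_⟩
  rw [Fin.univ_val_map, List.ofFn_get, Multiset.coe_toList]

theorem sum_map_finset_sum {ι : Type*} (s : Multiset ℂ) (t : Finset ι) (f : ι → ℂ → ℂ) :
    (s.map (fun x => ∑ i ∈ t, f i x)).sum = ∑ i ∈ t, (s.map (f i)).sum := by
  induction s using Multiset.induction_on with
  | empty => simp
  | cons a s ih => simp [ih, Finset.sum_add_distrib]

theorem esymm_map_mul (s : Multiset ℂ) (c : ℂ) (j : ℕ) :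
    (s.map (fun z => c * z)).esymm j = c ^ j * s.esymm j := by
  rw [Multiset.esymm, Multiset.esymm, Multiset.powersetCard_map, Multiset.map_map,
    ← Multiset.sum_map_mul_left]
  congr 1
  refine Multiset.map_congr rfl fun t ht => ?_
  rw [Multiset.mem_powersetCard] at ht
  simp only [Function.comp_apply]
  rw [Multiset.prod_map_mul]
  simp [ht.2]

/-- The recursion computes the power sums. -/
theorem ps_eq (P : ℝ[X]) (k : ℕ) :
    ((ps P.coeff P.natDegree k : ℝ) : ℂ) =
      ((croots P).map (fun z => ((P.leadingCoeff : ℂ) * z) ^ k)).sum := by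
  set n := P.natDegree with hn
  set a : ℂ := (P.leadingCoeff : ℂ) with ha
  obtain ⟨f, hf⟩ := exists_fin_map (n := n) ((croots P).map (fun z => a * z))
    (by rw [Multiset.card_map, card_croots])
  have hsum : ∀ k, ((croots P).map (fun z => (a * z) ^ k)).sum = ∑ i, f i ^ k := by
    intro k
    have h1 : (croots P).map (fun z => (a * z) ^ k) =
        (Finset.univ.val.map f).map (fun y => y ^ k) := by
      rw [hf, Multiset.map_map]; rfl
    rw [h1, Multiset.map_map]
    rfl
  have he : ∀ j, 1 ≤ j → ((ec P.coeff n j : ℝ) : ℂ) =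
      (-1) ^ j * (Finset.univ.val.map f).esymm j := by
    intro j hj
    rw [hf, esymm_map_mul]
    by_cases hjn : j ≤ n
    · rw [ec, if_pos hjn]
      have hc := coeff_eq_esymm_roots_of_card (p := P.map (algebraMap ℝ ℂ)) (k := n - j)
        (by
          have := card_croots P
          rw [croots] at this
          rw [this, natDegree_map])
        (by rw [natDegree_map]; omega)
      rw [natDegree_map, coeff_map, ← hn, leadingCoeff_map] at hc
      have h2 : n - (n - j) = j := by omega
      rw [h2] at hc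
      push_cast
      have h3 : ((P.coeff (n - j) : ℝ) : ℂ) = a * (-1) ^ j * (croots P).esymm j := hc
      have h4 : ((P.coeff n : ℝ) : ℂ) = a := rfl
      rw [h3, h4]
      have h5 : a ^ j = a * a ^ (j - 1) := by
        rw [← pow_succ']; congr 1; omega
      rw [h5]; ring
    · rw [ec, if_neg hjn]
      have : (croots P).esymm j = 0 := by
        rw [Multiset.esymm, Multiset.powersetCard_eq_empty]
        · simp
        · rw [card_croots]; omega
      rw [this]; simp
  rw [hsum]
  induction k using Nat.strong_induction_on with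
  | _ k ih =>
    cases k with
    | zero => simp [ps_zero]
    | succ k =>
      rw [ps_succ, newton_multiset f k (fun j => ((ec P.coeff n j : ℝ) : ℂ)) he]
      push_cast
      congr 2
      refine Finset.sum_congr rfl fun j hj => ?_
      rw [ih (k - j) (by omega)]

/-- The Hermite matrix and the Tarski query. -/
theorem hmat_taq (P G : ℝ[X]) (hP : P ≠ 0) {n d : ℕ} (hn : P.natDegree = n)
    (hG : G.natDegree ≤ d) :
    (hmat P.coeff G.coeff n d).IsHermitian ∧
    (((hmat P.coeff G.coeff n d).charpoly.roots.countP (0 < ·) : ℤ) -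
      (hmat P.coeff G.coeff n d).charpoly.roots.countP (· < 0)) = taq P G := by
  subst hn
  set a : ℝ := P.leadingCoeff with ha
  have ha0 : a ≠ 0 := leadingCoeff_ne_zero.2 hP
  have hc : 0 < a ^ (2 * d) := by
    rw [pow_mul]; positivity
  refine herm_taq P G hP rfl a (a ^ (2 * d)) ha0 hc _ fun i j => ?_
  have h1 : ∀ z : ℂ, ((a ^ (2 * d) : ℝ) : ℂ) *
      ((G.map (algebraMap ℝ ℂ)).eval z * (a * z) ^ (i.1 + j.1)) =
      ∑ k ∈ Finset.range (d + 1), ((G.coeff k * a ^ (2 * d - k) : ℝ) : ℂ) *
        ((a : ℂ) * z) ^ (i.1 + j.1 + k) := by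
    intro z
    rw [eval_eq_sum_range' (n := d + 1) (by rw [natDegree_map]; omega), Finset.sum_mul,
      Finset.mul_sum]
    refine Finset.sum_congr rfl fun k hk => ?_
    have hk' := Finset.mem_range.1 hk
    rw [coeff_map]
    push_cast
    have h2 : (a : ℂ) ^ (2 * d) = (a : ℂ) ^ (2 * d - k) * (a : ℂ) ^ k := by
      rw [← pow_add]; congr 1; omega
    rw [h2, pow_add _ _ k, mul_pow (a : ℂ) z k, Complex.coe_algebraMap]
    ring
  rw [← Multiset.sum_map_mul_left]
  simp_rw [h1]
  rw [hmat, Matrix.of_apply, sum_map_finset_sum, Complex.ofReal_sum]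
  refine Finset.sum_congr rfl fun k _ => ?_
  rw [Complex.ofReal_mul, ps_eq, Multiset.sum_map_mul_left]
  rfl

end Pool.Agent.QC
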