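import Pool.Agent.QC.Mat
import Pool.Agent.QC.Root
import Pool.Agent.QC.Sign.Power

/-!
# Cost of the Hermite matrix and of a Tarski query
-/

namespace Pool.Agent.QC

open MvPolynomial

variable {σ : Type*}

theorem charpolyRev_coeff {R : Type*} [CommRing R] [Nontrivial R] {n : ℕ}
    (A : Matrix (Fin n) (Fin n) R) {i : ℕ} (hi : i ≤ n) :
    A.charpolyRev.coeff i = A.charpoly.coeff (n - i) := by
  rw [← Matrix.reverse_charpoly, Polynomial.coeff_reverse, Matrix.charpoly_natDegree_eq_dim,
    Fintype.card_fin, Polynomial.revAt_le hi]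

/-- The Tarski query is determined by the signs of the coefficients of the characteristic
polynomial of the Hermite matrix. -/
theorem taq_eq_of_sign {P P' G G' : Polynomial ℝ} {n d : ℕ} (hP : P ≠ 0) (hP' : P' ≠ 0)
    (hn : P.natDegree = n) (hn' : P'.natDegree = n) (hG : G.natDegree ≤ d)
    (hG' : G'.natDegree ≤ d)
    (h : ∀ i ≤ n, SignType.sign ((hmat P.coeff G.coeff n d).charpolyRev.coeff i) =
      SignType.sign ((hmat P'.coeff G'.coeff n d).charpolyRev.coeff i)) :
    taq P G = taq P' G' := by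
  obtain ⟨h1, h2⟩ := hmat_taq P G hP hn hG
  obtain ⟨h1', h2'⟩ := hmat_taq P' G' hP' hn' hG'
  have h3 := countP_eq_of_sign (n := n) _ _ (hmat P.coeff G.coeff n d).charpoly_monic
    (hmat P'.coeff G'.coeff n d).charpoly_monic
    (by rw [Matrix.charpoly_natDegree_eq_dim, Fintype.card_fin])
    (by rw [Matrix.charpoly_natDegree_eq_dim, Fintype.card_fin])
    (roots_card_of_isHermitian _ h1) (roots_card_of_isHermitian _ h1') (by
      intro i hi
      have h4 := h (n - i) (by omega)
      rw [charpolyRev_coeff _ (by omega), charpolyRev_coeff _ (by omega)] at h4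
      have : n - (n - i) = i := by omega
      rwa [this] at h4)
  rw [← h2, ← h2', h3.1, h3.2]

/-! ### Degrees -/

section Deg

variable {m : ℕ} {a g : ℕ → MvPolynomial σ ℤ}

theorem totalDegree_ec (ha : ∀ i, (a i).totalDegree ≤ m) (n j : ℕ) (hj : 1 ≤ j) :
    (ec a n j).totalDegree ≤ j * m := by
  rw [ec]
  split_ifs
  · refine (totalDegree_mul _ _).trans ?_
    have h1 := ha (n - j)
    have h2 := (totalDegree_pow (a n) (j - 1)).trans (Nat.mul_le_mul_left (j - 1) (ha n))
    calc _ ≤ m + (j - 1) * m := add_le_add h1 h2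
      _ = (1 + (j - 1)) * m := by ring
      _ = j * m := by congr 1; omega
  · simp

theorem totalDegree_ps (ha : ∀ i, (a i).totalDegree ≤ m) (n k : ℕ) :
    (ps a n k).totalDegree ≤ k * m := by
  induction k using Nat.strong_induction_on with
  | _ k ih =>
    cases k with
    | zero =>
      rw [ps_zero]
      have : (n : MvPolynomial σ ℤ) = C (n : ℤ) := by simp
      rw [this, totalDegree_C]; omega
    | succ k =>
      rw [ps_succ, totalDegree_neg]
      refine (totalDegree_add _ _).trans (max_le ?_ ?_)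
      · refine (totalDegree_mul _ _).trans ?_
        have h1 := totalDegree_ec ha n (k + 1) (by omega)
        have h2 : (((k + 1 : ℕ) : MvPolynomial σ ℤ)).totalDegree = 0 := by
          have : ((k + 1 : ℕ) : MvPolynomial σ ℤ) = C ((k + 1 : ℕ) : ℤ) := by simp
          rw [this, totalDegree_C]
        omega
      · refine totalDegree_finsetSum_le fun j hj => (totalDegree_mul _ _).trans ?_
        have hj' := Finset.mem_range.1 hj
        have h1 := totalDegree_ec ha n (j + 1) (by omega)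
        have h2 := ih (k - j) (by omega)
        calc _ ≤ (j + 1) * m + (k - j) * m := add_le_add h1 h2
          _ = (k + 1) * m := by rw [← Nat.add_mul]; congr 1; omega

theorem totalDegree_hmat (ha : ∀ i, (a i).totalDegree ≤ m) (hg : ∀ i, (g i).totalDegree ≤ m)
    (n d : ℕ) (i j : Fin n) :
    (hmat a g n d i j).totalDegree ≤ (1 + 2 * d + 2 * n) * m := by
  rw [hmat, Matrix.of_apply]
  refine totalDegree_finsetSum_le fun k hk => (totalDegree_mul _ _).trans ?_
  have hk' := Finset.mem_range.1 hk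
  have h1 : (g k * a n ^ (2 * d - k)).totalDegree ≤ m + (2 * d - k) * m := by
    refine (totalDegree_mul _ _).trans (add_le_add (hg k) ?_)
    exact (totalDegree_pow _ _).trans (Nat.mul_le_mul_left _ (ha n))
  have h2 := totalDegree_ps ha n (i + j + k)
  have hi := i.2
  have hj := j.2
  calc _ ≤ (m + (2 * d - k) * m) + (i + j + k) * m := add_le_add h1 h2
    _ = (1 + (2 * d - k) + (i + j + k)) * m := by ring
    _ ≤ _ := Nat.mul_le_mul_right _ (by omega)

end Deg

/-! ### Cost -/

theorem Calc.pows {m N M : ℕ} {K : Set (MvPolynomial σ ℤ)} {p : MvPolynomial σ ℤ} (hp : p ∈ K)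
    (hd : p.totalDegree ≤ m) (hM : N * m ≤ M) :
    Calc M (N + 1) K {q | ∃ j < N + 1, q = p ^ j} := by
  have := Calc.iter' (K := K) (M := M) (c := 1) (p := fun j => p ^ j) (N + 1) ?_
  · simpa using this
  · intro i hi
    cases i with
    | zero =>
      refine ((Calc.const (M := M) 1).mono_c (by omega)).mono_P ?_
      simp
    | succ i =>
      have h1 : p ^ (i + 1) = p ^ i * p := pow_succ p i
      rw [h1]
      refine Calc.mul (Or.inr ⟨i, by omega, rfl⟩) (Or.inl hp) ?_
      rw [← h1]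
      exact (totalDegree_pow _ _).trans (((Nat.mul_le_mul_left _ hd)).trans
        ((Nat.mul_le_mul_right _ (by omega)).trans hM))

theorem Calc.ec {m n N M : ℕ} {K : Set (MvPolynomial σ ℤ)} {a : ℕ → MvPolynomial σ ℤ}
    (haK : ∀ i ≤ n, a i ∈ K) (ha : ∀ i, (a i).totalDegree ≤ m) (hM : N * m ≤ M) :
    Calc M (2 * N + 1) K {q | ∃ j < N, q = QC.ec a n (j + 1)} := by
  have h1 := Calc.pows (N := N) (haK n le_rfl) (ha n) hM
  have h2 : Calc M (Fintype.card (Fin N) * 1) (K ∪ {q | ∃ j < N + 1, q = a n ^ j})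
      (Set.range fun j : Fin N => QC.ec a n (j + 1)) := by
    refine Calc.range fun j => ?_
    have hdeg := totalDegree_ec ha n (j + 1) (by omega)
    rw [QC.ec] at hdeg ⊢
    split_ifs at hdeg ⊢ with hjn
    · refine Calc.mul (Or.inl (haK _ (by omega))) (Or.inr ⟨j + 1 - 1, by omega, rfl⟩)
        (hdeg.trans ((Nat.mul_le_mul_right _ (by omega)).trans hM))
    · refine ((Calc.const (M := M) 0).mono_c (by omega)).mono_P ?_
      simp
  rw [Fintype.card_fin] at h2
  refine ((h1.trans' h2).mono_c (by omega)).mono_P ?_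
  rintro _ ⟨j, hj, rfl⟩
  exact ⟨⟨j, hj⟩, rfl⟩

theorem Calc.ps {m n N M : ℕ} {K : Set (MvPolynomial σ ℤ)} {a : ℕ → MvPolynomial σ ℤ}
    (haK : ∀ i ≤ n, a i ∈ K) (ha : ∀ i, (a i).totalDegree ≤ m) (hM : N * m ≤ M) :
    Calc M (2 * N + 1 + (N + 1) * (2 * N + 3)) K {q | ∃ k < N + 1, q = QC.ps a n k} := by
  refine (Calc.ec haK ha hM).trans' ?_
  refine Calc.iter' (N + 1) fun k hk => ?_
  have hdk := totalDegree_ps ha n k
  have hdM : k * m ≤ M := (Nat.mul_le_mul_right _ (by omega)).trans hM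
  cases k with
  | zero =>
    rw [ps_zero]
    refine ((Calc.const (M := M) (n : ℤ)).mono_c (by omega)).mono_P ?_
    simp
  | succ k =>
    rw [ps_succ] at hdk ⊢
    set K' := K ∪ {q | ∃ j < N, q = QC.ec a n (j + 1)} ∪ {q | ∃ j < k + 1, q = QC.ps a n j}
      with hK'
    have hde : (QC.ec a n (k + 1)).totalDegree ≤ (k + 1) * m := totalDegree_ec ha n _ (by omega)
    have hdp : (((k + 1 : ℕ) : MvPolynomial σ ℤ) * QC.ec a n (k + 1)).totalDegree ≤ (k + 1) * m := by
      refine (totalDegree_mul _ _).trans ?_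
      have h2 : (((k + 1 : ℕ) : MvPolynomial σ ℤ)).totalDegree = 0 := by
        have : ((k + 1 : ℕ) : MvPolynomial σ ℤ) = C ((k + 1 : ℕ) : ℤ) := by simp
        rw [this, totalDegree_C]
      omega
    have hterm : ∀ j ∈ Finset.range k,
        (QC.ec a n (j + 1) * QC.ps a n (k - j)).totalDegree ≤ (k + 1) * m := by
      intro j hj
      have hj' := Finset.mem_range.1 hj
      refine (totalDegree_mul _ _).trans ?_
      have h1 := totalDegree_ec ha n (j + 1) (by omega)
      have h2 := totalDegree_ps ha n (k - j)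
      calc _ ≤ (j + 1) * m + (k - j) * m := add_le_add h1 h2
        _ = (k + 1) * m := by rw [← Nat.add_mul]; congr 1; omega
    have c1 : Calc M (2 * k) K' {∑ j ∈ Finset.range k, QC.ec a n (j + 1) * QC.ps a n (k - j)} := by
      refine (Calc.dot (Finset.range k) (fun j hj => ?_) (fun j hj => ?_)
        (fun j hj => (hterm j hj).trans hdM)).mono_c (by rw [Finset.card_range])
      · have hj' := Finset.mem_range.1 hj
        exact Or.inl (Or.inr ⟨j, by omega, rfl⟩)
      · exact Or.inr ⟨k - j, by omega, rfl⟩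
    have c2 : Calc M (0 + 1) K' {((k + 1 : ℕ) : MvPolynomial σ ℤ) * QC.ec a n (k + 1)} := by
      refine (Calc.const ((k + 1 : ℕ) : ℤ)).trans' ?_
      have : ((k + 1 : ℕ) : MvPolynomial σ ℤ) = C ((k + 1 : ℕ) : ℤ) := by simp
      rw [this] at hdp ⊢
      exact Calc.mul (Or.inr rfl) (Or.inl (Or.inl (Or.inr ⟨k, by omega, rfl⟩)))
        (hdp.trans hdM)
    have hsum : (((k + 1 : ℕ) : MvPolynomial σ ℤ) * QC.ec a n (k + 1) +
        ∑ j ∈ Finset.range k, QC.ec a n (j + 1) * QC.ps a n (k - j)).totalDegree ≤ (k + 1) * m := by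
      rwa [totalDegree_neg] at hdk
    have c3 : Calc M (2 * k + (0 + 1) + 1) K' {((k + 1 : ℕ) : MvPolynomial σ ℤ) * QC.ec a n (k + 1) +
        ∑ j ∈ Finset.range k, QC.ec a n (j + 1) * QC.ps a n (k - j)} :=
      (c1.union c2).trans' (Calc.add (Or.inr (Or.inr rfl)) (Or.inr (Or.inl rfl))
        (hsum.trans hdM))
    have c4 := c3.union (Calc.const (M := M) (K := K') 0)
    have c5 := c4.trans' (Calc.sub (M := M) (p := C 0) (q := ((k + 1 : ℕ) : MvPolynomial σ ℤ) *
        QC.ec a n (k + 1) + ∑ j ∈ Finset.range k, QC.ec a n (j + 1) * QC.ps a n (k - j))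
        (Or.inr (Or.inr rfl)) (Or.inr (Or.inl rfl)) (by
          rw [C_0, zero_sub]; exact hdk.trans hdM))
    rw [C_0, zero_sub] at c5
    exact c5.mono_c (by omega)

/-- The entries of the Hermite matrix. -/
theorem Calc.hmat {m n d M : ℕ} {K : Set (MvPolynomial σ ℤ)} {a g : ℕ → MvPolynomial σ ℤ}
    (haK : ∀ i ≤ n, a i ∈ K) (hgK : ∀ i ≤ d, g i ∈ K) (ha : ∀ i, (a i).totalDegree ≤ m)
    (hg : ∀ i, (g i).totalDegree ≤ m) (hM : (1 + 2 * d + 2 * n) * m ≤ M) :
    Calc M (20 * (d + n + 1) ^ 3) K {q | ∃ i j, q = QC.hmat a g n d i j} := by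
  set N := 2 * n + d with hN
  have hNM : N * m ≤ M := (Nat.mul_le_mul_right _ (by omega)).trans hM
  have c1 := Calc.ps (n := n) (N := N) haK ha hNM
  have c2 := Calc.pows (N := 2 * d) (haK n le_rfl) (ha n)
    ((Nat.mul_le_mul_right m (by omega)).trans hM)
  have c3 : Calc M (Fintype.card (Fin (d + 1)) * 1) (K ∪ {q | ∃ j < 2 * d + 1, q = a n ^ j})
      (Set.range fun k : Fin (d + 1) => g k * a n ^ (2 * d - k)) := by
    refine Calc.range fun k => Calc.mul (Or.inl (hgK _ (by omega)))
      (Or.inr ⟨2 * d - k, by omega, rfl⟩) ?_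
    refine ((totalDegree_mul _ _).trans (add_le_add (hg k) ((totalDegree_pow _ _).trans
      (Nat.mul_le_mul_left _ (ha n))))).trans ?_
    calc m + (2 * d - k) * m = (1 + (2 * d - k)) * m := by ring
      _ ≤ (1 + 2 * d + 2 * n) * m := Nat.mul_le_mul_right _ (by omega)
      _ ≤ M := hM
  rw [Fintype.card_fin, mul_one] at c3
  have c4 := c1.union (c2.trans' c3)
  have c5 : Calc M (Fintype.card (Fin n × Fin n) * (2 * (d + 1)))
      (K ∪ ({q | ∃ k < N + 1, q = QC.ps a n k} ∪
        Set.range fun k : Fin (d + 1) => g k * a n ^ (2 * d - k)))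
      (Set.range fun x : Fin n × Fin n => QC.hmat a g n d x.1 x.2) := by
    refine Calc.range fun x => ?_
    rw [QC.hmat, Matrix.of_apply]
    refine (Calc.dot (Finset.range (d + 1)) (fun k hk => ?_) (fun k hk => ?_)
      (fun k hk => ?_)).mono_c (by rw [Finset.card_range])
    · exact Or.inr (Or.inr ⟨⟨k, Finset.mem_range.1 hk⟩, rfl⟩)
    · have hk' := Finset.mem_range.1 hk
      have h1 := x.1.2
      have h2 := x.2.2
      exact Or.inr (Or.inl ⟨_, by omega, rfl⟩)
    · have hk' := Finset.mem_range.1 hk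
      have h1 := x.1.2
      have h2 := x.2.2
      refine ((totalDegree_mul _ _).trans (add_le_add ((totalDegree_mul _ _).trans
        (add_le_add (hg k) ((totalDegree_pow _ _).trans (Nat.mul_le_mul_left _ (ha n)))))
        (totalDegree_ps ha n _))).trans ?_
      calc m + (2 * d - k) * m + (x.1 + x.2 + k) * m =
          (1 + (2 * d - k) + (x.1 + x.2 + k)) * m := by ring
        _ ≤ (1 + 2 * d + 2 * n) * m := Nat.mul_le_mul_right _ (by omega)
        _ ≤ M := hM
  rw [Fintype.card_prod, Fintype.card_fin] at c5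
  refine ((c4.trans' c5).mono_c ?_).mono_P ?_
  · have h1 : 2 * N + 1 + (N + 1) * (2 * N + 3) + (2 * d + 1 + (d + 1)) +
        n * n * (2 * (d + 1)) ≤ 20 * (d + n + 1) ^ 3 := by
      rw [hN]
      ring_nf
      nlinarith [Nat.zero_le (d * n), Nat.zero_le (d ^ 2 * n), Nat.zero_le (d * n ^ 2)]
    exact h1
  · rintro _ ⟨i, j, rfl⟩
    exact ⟨(i, j), rfl⟩

end Pool.Agent.QC
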