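import Mathlib

/-!
# Descartes' rule is exact for real rooted polynomials
-/

namespace Pool.Agent.QC

open Polynomial

theorem comp_neg_X_natDegree (p : ℝ[X]) : (p.comp (-X)).natDegree = p.natDegree := by
  rw [natDegree_comp]; simp

theorem comp_neg_X_leadingCoeff (p : ℝ[X]) :
    (p.comp (-X)).leadingCoeff = p.leadingCoeff * (-1) ^ p.natDegree := by
  rw [leadingCoeff_comp (by simp)]; simp

theorem comp_neg_X_eraseLead (p : ℝ[X]) : (p.comp (-X)).eraseLead = p.eraseLead.comp (-X) := by
  by_cases hp : p = 0
  · simp [hp]
  have h1 : p.comp (-X) = p.eraseLead.comp (-X) +
      monomial p.natDegree (p.leadingCoeff * (-1) ^ p.natDegree) := by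
    conv_lhs => rw [← eraseLead_add_monomial_natDegree_leadingCoeff p]
    rw [add_comp, monomial_comp]
    congr 1
    rw [neg_pow, ← C_mul_X_pow_eq_monomial, C_mul, C_pow]
    simp
    ring
  have h2 : (p.comp (-X)).eraseLead = p.comp (-X) -
      monomial p.natDegree (p.leadingCoeff * (-1) ^ p.natDegree) := by
    rw [← self_sub_monomial_natDegree_leadingCoeff, comp_neg_X_natDegree, comp_neg_X_leadingCoeff]
  rw [h2, h1]; ring

theorem signVar_add_le (p : ℝ[X]) (hp : p ≠ 0) :
    p.signVariations + (p.comp (-X)).signVariations + p.natTrailingDegree ≤ p.natDegree := by
  induction hn : p.natDegree using Nat.strong_induction_on generalizing p with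
  | _ n ih =>
    have hq0 : p.comp (-X) ≠ 0 := by
      intro h
      have := congrArg natDegree h
      have h3 := comp_neg_X_leadingCoeff p
      rw [h, leadingCoeff_zero] at h3
      have h4 := leadingCoeff_ne_zero.2 hp
      have : ((-1 : ℝ)) ^ p.natDegree ≠ 0 := pow_ne_zero _ (by norm_num)
      exact (mul_ne_zero h4 this) h3.symm
    rw [signVariations_eq_eraseLead_add_ite hp, signVariations_eq_eraseLead_add_ite hq0,
      comp_neg_X_eraseLead, comp_neg_X_leadingCoeff, comp_neg_X_leadingCoeff]
    by_cases he : p.eraseLead = 0
    · have h1 : SignType.sign p.leadingCoeff ≠ 0 := by simp [hp]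
      have h2 : SignType.sign (p.leadingCoeff * (-1) ^ p.natDegree) ≠ 0 := by
        rw [Ne, sign_eq_zero_iff]
        exact mul_ne_zero (leadingCoeff_ne_zero.2 hp) (pow_ne_zero _ (by norm_num))
      simp only [he, signVariations_zero, zero_comp, leadingCoeff_zero, sign_zero, neg_zero, h1,
        if_false, natDegree_zero, zero_mul, h2, zero_add]
      rw [← hn]
      exact natTrailingDegree_le_natDegree p
    · have hlt : p.eraseLead.natDegree < p.natDegree := by
        refine eraseLead_natDegree_lt ?_
        by_contra hc
        have h2 : p.eraseLead.support.card = 0 := by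
          rw [card_support_eraseLead]; omega
        rw [Finset.card_eq_zero, support_eq_empty] at h2
        exact he h2
      have htr : p.eraseLead.natTrailingDegree = p.natTrailingDegree := by
        apply le_antisymm
        · refine natTrailingDegree_le_of_ne_zero ?_
          rw [eraseLead_coeff_of_ne]
          · exact trailingCoeff_nonzero_iff_nonzero.2 hp
          · intro h
            have h5 : p.eraseLead.coeff p.eraseLead.natDegree ≠ 0 := leadingCoeff_ne_zero.2 he
            rw [eraseLead_coeff_of_ne _ hlt.ne] at h5
            have := natTrailingDegree_le_of_ne_zero h5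
            omega
        · refine natTrailingDegree_le_of_ne_zero ?_
          have h5 : p.eraseLead.coeff p.eraseLead.natTrailingDegree ≠ 0 :=
            trailingCoeff_nonzero_iff_nonzero.2 he
          rwa [eraseLead_coeff_of_ne] at h5
          have := natTrailingDegree_le_natDegree p.eraseLead
          omega
      have hi := ih _ (hn ▸ hlt) p.eraseLead he rfl
      rw [htr] at hi
      set a := p.leadingCoeff with ha
      set b := p.eraseLead.leadingCoeff with hb
      have ha0 : a ≠ 0 := leadingCoeff_ne_zero.2 hp
      have hb0 : b ≠ 0 := leadingCoeff_ne_zero.2 he
      set u := p.natDegree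
      set v := p.eraseLead.natDegree
      have key : (if SignType.sign a = -SignType.sign b then 1 else 0) +
          (if SignType.sign (a * (-1) ^ u) = -SignType.sign (b * (-1) ^ v) then 1 else 0)
          ≤ u - v := by
        have hs1 : ∀ k : ℕ, SignType.sign ((-1 : ℝ) ^ k) = (-1) ^ k := by
          intro k
          rcases Nat.even_or_odd k with h | h
          · rw [h.neg_one_pow, h.neg_one_pow]; simp
          · rw [h.neg_one_pow, h.neg_one_pow]; simp
        rw [sign_mul, sign_mul, hs1, hs1]
        rcases Nat.even_or_odd (u - v) with h | h
        · have h2 : 2 ≤ u - v := by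
            obtain ⟨w, hw⟩ := h
            omega
          have : ∀ (P Q : Prop) [Decidable P] [Decidable Q],
              (if P then 1 else 0) + (if Q then 1 else 0) ≤ 2 := by
            intro P Q _ _; split_ifs <;> omega
          exact (this _ _).trans h2
        · have h2 : 1 ≤ u - v := by omega
          refine le_trans ?_ h2
          have hpow : ((-1 : SignType)) ^ u = -(-1) ^ v := by
            have : u = v + (u - v) := by omega
            rw [this, pow_add, h.neg_one_pow]; simp
          rw [hpow]
          have hx : SignType.sign a ≠ 0 := by simpa using ha0
          have hy : SignType.sign b ≠ 0 := by simpa using hb0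
          have hz : ((-1 : SignType)) ^ v ≠ 0 := by
            rcases Nat.even_or_odd v with h | h
            · rw [h.neg_one_pow]; decide
            · rw [h.neg_one_pow]; decide
          generalize SignType.sign a = x at *
          generalize SignType.sign b = y at *
          generalize ((-1 : SignType)) ^ v = z at *
          clear hpow
          revert x y z
          decide
      omega

/-- Number of positive and negative roots, counted with multiplicity. -/
theorem countP_pos_eq (p : ℝ[X]) (hp : p ≠ 0) (hs : p.roots.card = p.natDegree) :
    p.roots.countP (0 < ·) = p.signVariations ∧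
    p.roots.countP (· < 0) = (p.comp (-X)).signVariations := by
  have h1 := roots_countP_pos_le_signVariations p
  have h2 := roots_countP_pos_le_signVariations (p.comp (-X))
  have h3 := signVar_add_le p hp
  rw [roots_comp_neg_X, Multiset.countP_map, ← Multiset.countP_eq_card_filter] at h2
  simp only [Left.neg_pos_iff] at h2
  have h4 : p.roots.count 0 = p.natTrailingDegree := by
    rw [count_roots, rootMultiplicity_eq_natTrailingDegree']
  have h5 : p.roots.countP (0 < ·) + p.roots.countP (· < 0) + p.roots.count 0 =
      p.roots.card := by
    generalize p.roots = s
    induction s using Multiset.induction_on with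
    | empty => simp
    | cons a s ih =>
      rcases lt_trichotomy a 0 with h | h | h
      · have h6 : ¬ (0 < a) := h.le.not_gt
        simp only [Multiset.countP_cons, Multiset.count_cons, Multiset.card_cons, h, h6, h.ne',
          if_true, if_false]
        omega
      · subst h
        simp only [Multiset.countP_cons, Multiset.count_cons, Multiset.card_cons, lt_irrefl,
          if_true, if_false]
        omega
      · have h6 : ¬ (a < 0) := h.le.not_gt
        simp only [Multiset.countP_cons, Multiset.count_cons, Multiset.card_cons, h, h6, h.ne,
          if_true, if_false]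
        omega
  omega

end Pool.Agent.QC
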