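import Pool.Agent.QC.Sign.Sig

/-!
# The Hermite form and Tarski queries
-/

namespace Pool.Agent.QC

open Polynomial Matrix

/-- The Tarski query: the sum of the signs of `G` at the real roots of `P`. -/
noncomputable def taq (P G : ℝ[X]) : ℤ :=
  ∑ z ∈ P.roots.toFinset, (SignType.sign (G.eval z) : ℤ)

theorem ncard_add_ncard {ι : Type*} [Fintype ι] (w : ι → ℝ) :
    {i | 0 < w i}.ncard + {i | w i < 0}.ncard = {i | w i ≠ 0}.ncard := by
  rw [← Set.ncard_union_eq]
  · congr 1
    ext i
    simp only [Set.mem_union, Set.mem_ofPred_eq]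
    constructor
    · rintro (h | h)
      · exact h.ne'
      · exact h.ne
    · intro h
      rcases lt_trichotomy (w i) 0 with h1 | h1 | h1
      · exact Or.inr h1
      · exact absurd h1 h
      · exact Or.inl h1
  · rw [Set.disjoint_left]
    intro i h1 h2
    simp only [Set.mem_ofPred_eq] at h1 h2
    exact lt_asymm h1 h2

theorem ncard_sub_ncard {ι : Type*} [Fintype ι] (w : ι → ℝ) :
    (({i | 0 < w i}.ncard : ℤ) - {i | w i < 0}.ncard) = ∑ i, (SignType.sign (w i) : ℤ) := by
  classical
  rw [Set.ncard_eq_toFinset_card', Set.ncard_eq_toFinset_card']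
  have h1 : ({i | 0 < w i} : Set ι).toFinset = Finset.univ.filter (fun i => 0 < w i) := by
    ext; simp
  have h2 : ({i | w i < 0} : Set ι).toFinset = Finset.univ.filter (fun i => w i < 0) := by
    ext; simp
  rw [h1, h2, Finset.card_filter, Finset.card_filter]
  push_cast
  rw [← Finset.sum_sub_distrib]
  refine Finset.sum_congr rfl fun i _ => ?_
  rcases lt_trichotomy (w i) 0 with h | h | h
  · simp [h, h.le.not_gt]
  · simp [h]
  · simp [h, h.le.not_gt]

/-- Sums over a set closed under conjugation. -/
theorem sum_conj {M : Type*} [AddCommMonoid M] [IsLeftCancelAdd M] (W : Finset ℂ)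
    (hW : ∀ z ∈ W, (starRingEnd ℂ) z ∈ W) (F : ℂ → M) :
    ∑ z ∈ W, F ((starRingEnd ℂ) z) = ∑ z ∈ W, F z := by
  refine Finset.sum_bij (fun z _ => (starRingEnd ℂ) z) (fun z hz => hW z hz) ?_ ?_ ?_
  · intro z _ z' _ h
    exact (starRingEnd ℂ).injective h
  · intro z hz
    exact ⟨(starRingEnd ℂ) z, hW z hz, by simp⟩
  · intro z _; rfl

theorem sum_eq_of_conj (W : Finset ℂ) (hW : ∀ z ∈ W, (starRingEnd ℂ) z ∈ W) (F F' : ℂ → ℝ)
    (h : ∀ z ∈ W, F z + F ((starRingEnd ℂ) z) = F' z + F' ((starRingEnd ℂ) z)) :
    ∑ z ∈ W, F z = ∑ z ∈ W, F' z := by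
  have h1 := sum_conj W hW F
  have h2 := sum_conj W hW F'
  have h3 : ∑ z ∈ W, (F z + F ((starRingEnd ℂ) z)) = ∑ z ∈ W, (F' z + F' ((starRingEnd ℂ) z)) :=
    Finset.sum_congr rfl h
  rw [Finset.sum_add_distrib, Finset.sum_add_distrib, h1, h2] at h3
  linarith

theorem sum_eq_of_conj_int (W : Finset ℂ) (hW : ∀ z ∈ W, (starRingEnd ℂ) z ∈ W) (F F' : ℂ → ℤ)
    (h : ∀ z ∈ W, F z + F ((starRingEnd ℂ) z) = F' z + F' ((starRingEnd ℂ) z)) :
    ∑ z ∈ W, F z = ∑ z ∈ W, F' z := by
  have h1 := sum_conj W hW F
  have h2 := sum_conj W hW F'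
  have h3 : ∑ z ∈ W, (F z + F ((starRingEnd ℂ) z)) = ∑ z ∈ W, (F' z + F' ((starRingEnd ℂ) z)) :=
    Finset.sum_congr rfl h
  rw [Finset.sum_add_distrib, Finset.sum_add_distrib, h1, h2] at h3
  linarith

/-- A real quadratic form which is a complex diagonal form on a set of points closed under
conjugation.  -/
theorem countP_of_conj {n : ℕ} (H : Matrix (Fin n) (Fin n) ℝ) (hH : H.IsHermitian)
    (W : Finset ℂ) (hW : ∀ z ∈ W, (starRingEnd ℂ) z ∈ W) (hcard : W.card = n)
    (a : ℝ) (ha : a ≠ 0) (g : ℂ → ℂ) (hg : ∀ z, g ((starRingEnd ℂ) z) = (starRingEnd ℂ) (g z))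
    (h : ∀ i j, ((H i j : ℝ) : ℂ) = ∑ z ∈ W, g z * (a * z) ^ (i.1 + j.1)) :
    (((H.charpoly.roots.countP (0 < ·) : ℤ) - H.charpoly.roots.countP (· < 0)) =
      ∑ z ∈ W, if z.im = 0 then (SignType.sign (g z).re : ℤ) else 0) ∧
    H.charpoly.roots.countP (0 < ·) + H.charpoly.roots.countP (· < 0) =
      (W.filter fun z => g z ≠ 0).card := by
  classical
  -- square roots
  have hω : ∀ z, ∃ ω : ℂ, ω ≠ 0 ∧ (g z ≠ 0 → ω ^ 2 = g z) := by
    intro z
    by_cases hz : g z = 0
    · exact ⟨1, one_ne_zero, fun h => absurd hz h⟩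
    · obtain ⟨ω, hω⟩ := IsAlgClosed.exists_pow_nat_eq (g z) (n := 2) (by norm_num)
      refine ⟨ω, ?_, fun _ => hω⟩
      rintro rfl
      exact hz (by rw [← hω]; norm_num)
  choose ω hω0 hω2 using hω
  -- evaluation
  let q : (Fin n → ℝ) → ℂ → ℂ := fun x z => ∑ i, (x i : ℂ) * (a * z) ^ (i : ℕ)
  have hqc : ∀ x z, q x ((starRingEnd ℂ) z) = (starRingEnd ℂ) (q x z) := by
    intro x z
    simp [q]
  have hqadd : ∀ x y z, q (x + y) z = q x z + q y z := by
    intro x y z
    simp only [q, Pi.add_apply, Complex.ofReal_add, add_mul, Finset.sum_add_distrib]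
  have hqsmul : ∀ (c : ℝ) x z, q (c • x) z = c * q x z := by
    intro c x z
    simp only [q, Pi.smul_apply, smul_eq_mul, Complex.ofReal_mul, mul_assoc, Finset.mul_sum]
  let w : ℂ → ℝ := fun z => if z.im = 0 then (g z).re else
    if 0 < z.im then (if g z = 0 then 0 else 2) else (if g z = 0 then 0 else -2)
  let Lf : (Fin n → ℝ) → ℂ → ℝ := fun x z => if z.im = 0 then (q x z).re else
    if 0 < z.im then (ω z * q x z).re else
      (ω ((starRingEnd ℂ) z) * q x ((starRingEnd ℂ) z)).im
  let L : (Fin n → ℝ) →ₗ[ℝ] (W → ℝ) :=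
    { toFun := fun x z => Lf x z
      map_add' := by
        intro x y
        funext z
        simp only [Lf, hqadd, Pi.add_apply, mul_add]
        split_ifs <;> simp
      map_smul' := by
        intro c x
        funext z
        simp only [Lf, hqsmul, Pi.smul_apply, smul_eq_mul, RingHom.id_apply]
        split_ifs <;> simp <;> ring }
  have hinj : Function.Injective L := by
    rw [injective_iff_map_eq_zero]
    intro x hx
    have hz0 : ∀ z ∈ W, q x z = 0 := by
      intro z hz
      have h1 : Lf x z = 0 := congrFun hx ⟨z, hz⟩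
      have h2 : Lf x ((starRingEnd ℂ) z) = 0 := congrFun hx ⟨_, hW z hz⟩
      rcases lt_trichotomy z.im 0 with hi | hi | hi
      · have hne : z.im ≠ 0 := hi.ne
        have hn0 : ¬ (0 < z.im) := hi.le.not_gt
        have hi' : 0 < -z.im := by linarith
        simp only [Lf, hne, hn0, if_false] at h1
        simp only [Lf, Complex.conj_im, neg_eq_zero, hne, if_false, hi', if_true] at h2
        have h3 : ω ((starRingEnd ℂ) z) * q x ((starRingEnd ℂ) z) = 0 :=
          Complex.ext (by simpa using h2) (by simpa using h1)
        have h4 := (mul_eq_zero.1 h3).resolve_left (hω0 _)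
        rw [hqc] at h4
        simpa using h4
      · simp only [Lf, hi, if_true] at h1
        have hzr : (starRingEnd ℂ) z = z := by
          apply Complex.ext <;> simp [hi]
        have h3 : (starRingEnd ℂ) (q x z) = q x z := by rw [← hqc, hzr]
        have h4 : (q x z).im = 0 := by
          have := congrArg Complex.im h3
          simp at this
          linarith
        exact Complex.ext (by simpa using h1) (by simpa using h4)
      · have hne : z.im ≠ 0 := hi.ne'
        have hn0 : ¬ (0 < -z.im) := by linarith
        simp only [Lf, hne, hi, if_false, if_true] at h1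
        simp only [Lf, Complex.conj_im, neg_eq_zero, hne, if_false, hn0, Complex.conj_conj] at h2
        have h3 : ω z * q x z = 0 :=
          Complex.ext (by simpa using h1) (by simpa using h2)
        exact (mul_eq_zero.1 h3).resolve_left (hω0 _)
    -- the polynomial
    let p : ℂ[X] := ∑ i : Fin n, C (x i : ℂ) * X ^ (i : ℕ)
    have hpe : ∀ z : ℂ, p.eval ((a : ℂ) * z) = q x z := by
      intro z
      simp [p, q, eval_finsetSum]
    have hp0 : p = 0 := by
      by_contra hp
      have hdeg : p.natDegree < n := by
        rcases Nat.eq_zero_or_pos n with h0 | h0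
        · subst h0
          exact absurd (by simp [p]) hp
        · have : p.degree < n := by
            refine (degree_sum_fin_lt (fun i : Fin n => (x i : ℂ)))
          exact (natDegree_lt_iff_degree_lt hp).2 this
      have hsub : W.image (fun z => (a : ℂ) * z) ⊆ p.roots.toFinset := by
        intro y hy
        obtain ⟨z, hz, rfl⟩ := Finset.mem_image.1 hy
        rw [Multiset.mem_toFinset, mem_roots hp, IsRoot.def, hpe, hz0 z hz]
      have hc := Finset.card_le_card hsub
      rw [Finset.card_image_of_injective _ (mul_right_injective₀ (by exact_mod_cast ha)), hcard]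
        at hc
      have := (Multiset.toFinset_card_le p.roots).trans (card_roots' p)
      omega
    funext i
    have h5 : p.coeff i = x i := by
      simp only [p, finsetSum_coeff, coeff_C_mul, coeff_X_pow]
      rw [Finset.sum_eq_single i]
      · simp
      · intro j _ hj
        have : (i : ℕ) ≠ j := fun h => hj (Fin.ext h.symm)
        simp [this]
      · simp
    rw [hp0, coeff_zero] at h5
    exact_mod_cast h5.symm
  have hfin : Module.finrank ℝ (Fin n → ℝ) = Module.finrank ℝ (W → ℝ) := by
    simp [hcard]
  let e := LinearMap.linearEquivOfInjective L hinj hfin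
  have he : ∀ x z, e x z = Lf x z := fun x z => rfl
  have key := countP_of_weights H hH (fun z : W => w z) e ?_
  · refine ⟨?_, ?_⟩
    swap
    · rw [key.1, key.2, ncard_add_ncard, Set.ncard_eq_toFinset_card']
      have h1 : (({z : W | w z ≠ 0} : Set W).toFinset.map (Function.Embedding.subtype _)) =
          W.filter fun z => g z ≠ 0 := by
        ext z
        simp only [Finset.mem_map, Set.mem_toFinset, Set.mem_ofPred_eq,
          Function.Embedding.subtype_apply, Subtype.exists, exists_and_left, exists_prop,
          Finset.mem_filter, exists_eq_right_right]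
        rw [and_comm]
        refine and_congr_right fun hz => ?_
        simp only [w]
        split_ifs with h1 h2 h3 h3
        · have hzr : (starRingEnd ℂ) z = z := by
            apply Complex.ext <;> simp [h1]
          have hgi : (g z).im = 0 := by
            have := congrArg Complex.im (hg z)
            rw [hzr] at this
            simp at this
            linarith
          constructor
          · intro h4 h5
            exact h4 (by rw [h5]; rfl)
          · intro h4 h5
            exact h4 (Complex.ext (by simpa using h5) (by simpa using hgi))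
        · simp [h3]
        · simp [h3]
        · simp [h3]
        · simp [h3]
      rw [← h1, Finset.card_map]
    rw [key.1, key.2, ncard_sub_ncard]
    rw [Finset.sum_coe_sort W (fun z => (SignType.sign (w z) : ℤ))]
    refine sum_eq_of_conj_int W hW _ _ fun z _ => ?_
    rcases lt_trichotomy z.im 0 with hi | hi | hi
    · have hne : z.im ≠ 0 := hi.ne
      have hn0 : ¬ (0 < z.im) := hi.le.not_gt
      have hi' : 0 < -z.im := by linarith
      simp only [w, hne, hn0, if_false, Complex.conj_im, neg_eq_zero, hi', if_true, hg,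
        map_eq_zero]
      by_cases hgz : g z = 0
      · simp [hgz]
      · simp [hgz]
    · have hzr : (starRingEnd ℂ) z = z := by
        apply Complex.ext <;> simp [hi]
      rw [hzr]
      simp only [w, hi, if_true]
    · have hne : z.im ≠ 0 := hi.ne'
      have hn0 : ¬ (0 < -z.im) := by linarith
      simp only [w, hne, hn0, if_false, Complex.conj_im, neg_eq_zero, hi, if_true, hg,
        map_eq_zero]
      by_cases hgz : g z = 0
      · simp [hgz]
      · simp [hgz]
  · intro x
    have h1 : ((x ⬝ᵥ H *ᵥ x : ℝ) : ℂ) = ∑ z ∈ W, g z * (q x z) ^ 2 := by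
      have h3 : ∀ z ∈ W, g z * (q x z) ^ 2 =
          ∑ i, ∑ j, (x i : ℂ) * ((g z * (a * z) ^ (i.1 + j.1)) * x j) := by
        intro z _
        rw [pow_two]
        simp only [q, Finset.sum_mul, Finset.mul_sum]
        rw [Finset.sum_comm]
        refine Finset.sum_congr rfl fun i _ => Finset.sum_congr rfl fun j _ => ?_
        rw [pow_add]; ring
      rw [Finset.sum_congr rfl h3, Finset.sum_comm]
      simp only [dotProduct, mulVec, Complex.ofReal_sum, Complex.ofReal_mul, h]
      refine Finset.sum_congr rfl fun i _ => ?_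
      rw [Finset.sum_comm, Finset.mul_sum]
      refine Finset.sum_congr rfl fun j _ => ?_
      rw [Finset.sum_mul, Finset.mul_sum]
    have h2 : x ⬝ᵥ H *ᵥ x = ∑ z ∈ W, (g z * (q x z) ^ 2).re := by
      have := congrArg Complex.re h1
      rw [Complex.ofReal_re, Complex.re_sum] at this
      exact this
    rw [h2]
    simp only [he]
    rw [Finset.sum_coe_sort W (fun z => w z * (Lf x z) ^ 2)]
    refine sum_eq_of_conj W hW _ _ fun z _ => ?_
    have hre : (g ((starRingEnd ℂ) z) * q x ((starRingEnd ℂ) z) ^ 2).re =
        (g z * q x z ^ 2).re := by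
      rw [hg, hqc, ← map_pow, ← map_mul, Complex.conj_re]
    rw [hre]
    rcases lt_trichotomy z.im 0 with hi | hi | hi
    · have hne : z.im ≠ 0 := hi.ne
      have hn0 : ¬ (0 < z.im) := hi.le.not_gt
      have hi' : 0 < -z.im := by linarith
      simp only [w, Lf, hne, hn0, if_false, Complex.conj_im, neg_eq_zero, hi', if_true]
      by_cases hgz : g z = 0
      · simp [hgz, hg]
      · have hgz' : g ((starRingEnd ℂ) z) ≠ 0 := by rw [hg]; simpa using hgz
        simp only [hgz, hgz', if_false]
        rw [← hre, ← hω2 _ hgz', ← mul_pow]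
        generalize ω ((starRingEnd ℂ) z) * q x ((starRingEnd ℂ) z) = u
        rw [pow_two u, Complex.mul_re]; ring
    · have hzr : (starRingEnd ℂ) z = z := by
        apply Complex.ext <;> simp [hi]
      rw [hzr]
      simp only [w, Lf, hi, if_true]
      have hgi : (g z).im = 0 := by
        have := congrArg Complex.im (hg z)
        rw [hzr] at this
        simp at this
        linarith
      have hqi : (q x z).im = 0 := by
        have := congrArg Complex.im (hqc x z)
        rw [hzr] at this
        simp at this
        linarith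
      rw [pow_two (q x z), Complex.mul_re, Complex.mul_re, Complex.mul_im, hgi, hqi]; ring
    · have hne : z.im ≠ 0 := hi.ne'
      have hn0 : ¬ (0 < -z.im) := by linarith
      simp only [w, Lf, hne, hn0, if_false, Complex.conj_im, neg_eq_zero, hi, if_true,
        Complex.conj_conj]
      by_cases hgz : g z = 0
      · simp [hgz, hg]
      · have hgz' : g ((starRingEnd ℂ) z) ≠ 0 := by rw [hg]; simpa using hgz
        simp only [hgz, hgz', if_false]
        rw [← hω2 _ hgz, ← mul_pow]
        generalize ω z * q x z = u
        rw [pow_two u, Complex.mul_re]; ring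

end Pool.Agent.QC
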