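import Pool.Agent.QC.Sign.Descartes

/-!
# The signature of a real symmetric matrix and the roots of its characteristic polynomial
-/

namespace Pool.Agent.QC

open Polynomial Matrix QuadraticMap QuadraticForm

theorem equiv_of_weights {n : ℕ} {ι : Type*} [Fintype ι] (H : Matrix (Fin n) (Fin n) ℝ)
    (w : ι → ℝ) (L : (Fin n → ℝ) ≃ₗ[ℝ] (ι → ℝ))
    (h : ∀ x, x ⬝ᵥ H *ᵥ x = ∑ i, w i * (L x i) ^ 2) :
    (H.toQuadraticForm').Equivalent (weightedSumSquares ℝ w) := by
  refine ⟨⟨L, fun x => ?_⟩⟩
  rw [weightedSumSquares_apply]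
  have : (H.toQuadraticForm') x = x ⬝ᵥ H *ᵥ x := by
    simp [Matrix.toQuadraticForm', Matrix.toLinearMap₂'_apply']
  rw [this, h]
  refine Finset.sum_congr rfl fun i _ => ?_
  simp [pow_two]

theorem roots_card_of_isHermitian {n : ℕ} (H : Matrix (Fin n) (Fin n) ℝ) (hH : H.IsHermitian) :
    H.charpoly.roots.card = n := by
  rw [hH.roots_charpoly_eq_eigenvalues]; simp

theorem countP_map_univ {n : ℕ} (f : Fin n → ℝ) (p : ℝ → Prop) [DecidablePred p] :
    (Multiset.map f Finset.univ.val).countP p = {i | p (f i)}.ncard := by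
  rw [Multiset.countP_map, Set.ncard_eq_toFinset_card' {i | p (f i)}]
  rw [← Finset.filter_val]
  simp [Finset.card]

/-- Sylvester's law: the number of positive and negative eigenvalues of `H` can be read off from
any real diagonalisation of the quadratic form. -/
theorem countP_of_weights {n : ℕ} {ι : Type*} [Fintype ι] (H : Matrix (Fin n) (Fin n) ℝ)
    (hH : H.IsHermitian) (w : ι → ℝ) (L : (Fin n → ℝ) ≃ₗ[ℝ] (ι → ℝ))
    (h : ∀ x, x ⬝ᵥ H *ᵥ x = ∑ i, w i * (L x i) ^ 2) :
    H.charpoly.roots.countP (0 < ·) = {i | 0 < w i}.ncard ∧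
    H.charpoly.roots.countP (· < 0) = {i | w i < 0}.ncard := by
  have e1 := equiv_of_weights H w L h
  have e2 : (H.toQuadraticForm').Equivalent (weightedSumSquares ℝ hH.eigenvalues) := by
    refine equiv_of_weights H hH.eigenvalues
      (Matrix.UnitaryGroup.toLinearEquiv (star hH.eigenvectorUnitary)) fun x => ?_
    set U : Matrix (Fin n) (Fin n) ℝ := (hH.eigenvectorUnitary : Matrix (Fin n) (Fin n) ℝ) with hU
    have h1 : H = U * diagonal hH.eigenvalues * star U := by
      have := hH.spectral_theorem
      rw [Unitary.conjStarAlgAut_apply] at this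
      simpa using this
    have h2 : x ⬝ᵥ H *ᵥ x = (star U *ᵥ x) ⬝ᵥ (diagonal hH.eigenvalues *ᵥ (star U *ᵥ x)) := by
      conv_lhs => rw [h1]
      rw [← Matrix.mulVec_mulVec, ← Matrix.mulVec_mulVec, dotProduct_mulVec]
      congr 1
      rw [star_eq_conjTranspose, conjTranspose_eq_transpose_of_trivial, mulVec_transpose]
    rw [h2]
    simp only [dotProduct, mulVec_diagonal]
    refine Finset.sum_congr rfl fun i _ => ?_
    change (star U *ᵥ x) i * (hH.eigenvalues i * (star U *ᵥ x) i) =
      hH.eigenvalues i * ((star U *ᵥ x) i) ^ 2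
    ring
  have hr : H.charpoly.roots = Multiset.map hH.eigenvalues Finset.univ.val := by
    rw [hH.roots_charpoly_eq_eigenvalues]; rfl
  constructor
  · rw [hr, countP_map_univ, ← sigPos_of_equiv_weightedSumSquares e2,
      sigPos_of_equiv_weightedSumSquares e1]
  · rw [hr, countP_map_univ, ← sigNeg_of_equiv_weightedSumSquares e2,
      sigNeg_of_equiv_weightedSumSquares e1]

/-- The signs of the coefficients determine the numbers of positive and negative roots of a
monic real rooted polynomial. -/
theorem countP_eq_of_sign {n : ℕ} (p q : ℝ[X]) (hp : p.Monic) (hq : q.Monic)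
    (hpn : p.natDegree = n) (hqn : q.natDegree = n) (hpr : p.roots.card = n)
    (hqr : q.roots.card = n)
    (h : ∀ i < n, SignType.sign (p.coeff i) = SignType.sign (q.coeff i)) :
    p.roots.countP (0 < ·) = q.roots.countP (0 < ·) ∧
    p.roots.countP (· < 0) = q.roots.countP (· < 0) := by
  have h' : ∀ i, SignType.sign (p.coeff i) = SignType.sign (q.coeff i) := by
    intro i
    rcases lt_trichotomy i n with hi | hi | hi
    · exact h i hi
    · subst hi
      have h1 : p.coeff i = 1 := by rw [← hpn]; exact hp.coeff_natDegree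
      have h2 : q.coeff i = 1 := by rw [← hqn]; exact hq.coeff_natDegree
      rw [h1, h2]
    · rw [coeff_eq_zero_of_natDegree_lt (by omega), coeff_eq_zero_of_natDegree_lt (by omega)]
  have hV : ∀ (a b : ℝ[X]), a.natDegree = b.natDegree → a ≠ 0 → b ≠ 0 →
      (∀ i, SignType.sign (a.coeff i) = SignType.sign (b.coeff i)) →
      a.signVariations = b.signVariations := by
    intro a b hab ha hb hs
    have : a.coeffList.map SignType.sign = b.coeffList.map SignType.sign := by
      simp only [coeffList, List.map_map, withBotSucc_degree_eq_natDegree_add_one ha,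
        withBotSucc_degree_eq_natDegree_add_one hb, hab, List.map_reverse]
      congr 1
      refine List.map_congr_left fun i _ => ?_
      exact hs i
    rw [signVariations, signVariations, this]
  obtain ⟨h1, h2⟩ := countP_pos_eq p hp.ne_zero (by rw [hpr, hpn])
  obtain ⟨h3, h4⟩ := countP_pos_eq q hq.ne_zero (by rw [hqr, hqn])
  have hcoef : ∀ (a : ℝ[X]) (i : ℕ), (a.comp (-X)).coeff i = (-1) ^ i * a.coeff i := by
    intro a i
    induction a using Polynomial.induction_on' with
    | add p q hp hq => rw [add_comp, coeff_add, coeff_add, hp, hq]; ring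
    | monomial k c =>
      rw [monomial_comp, neg_pow, coeff_C_mul, coeff_monomial]
      have : ((-1 : ℝ[X]) ^ k * X ^ k) = C ((-1) ^ k) * X ^ k := by simp
      rw [this, coeff_C_mul, coeff_X_pow]
      by_cases hki : k = i
      · subst hki; simp; ring
      · simp [hki, Ne.symm hki]
  have hne : ∀ a : ℝ[X], a ≠ 0 → a.comp (-X) ≠ 0 := by
    intro a ha h0
    have h3 := comp_neg_X_leadingCoeff a
    rw [h0, leadingCoeff_zero] at h3
    exact (mul_ne_zero (leadingCoeff_ne_zero.2 ha) (pow_ne_zero _ (by norm_num))) h3.symm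
  refine ⟨by rw [h1, h3, hV p q (by rw [hpn, hqn]) hp.ne_zero hq.ne_zero h'], ?_⟩
  rw [h2, h4, hV (p.comp (-X)) (q.comp (-X))]
  · rw [comp_neg_X_natDegree, comp_neg_X_natDegree, hpn, hqn]
  · exact hne p hp.ne_zero
  · exact hne q hq.ne_zero
  · intro i
    rw [hcoef, hcoef, sign_mul, sign_mul, h' i]

end Pool.Agent.QC
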